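import Pool.Agent.Helper79_UR.Calc

/-!
# FIN (MP_c97607_co): kernel computation
-/

namespace Pool.Agent.Helper79_UR

theorem k01a :
    chunk 512 8400 461 129 75 1 5 10179 [2, 3, 5, 9, 17, 33, 66, 132, 263, 525, 1050, 2100, 4200, 8400] [(36, 32, 27, 32), (68, 134, 10, 11), (202, 8198, 141, 143)] 36 8400 = true := by decide +kernel

end Pool.Agent.Helper79_UR
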