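import Pool.Agent.Helper79_UR.Calc

/-!
# FIN (MP_c97607_co): kernel computation
-/

namespace Pool.Agent.Helper79_UR

theorem k02a :
    chunk 512 8400 461 116 75 14 6 10471 [2, 3, 5, 9, 17, 33, 66, 132, 263, 525, 1050, 2100, 4200, 8400] [(23, 18, 41, 55), (41, 60, 37, 45), (101, 154, 36, 41), (255, 519, 57, 61), (774, 7626, 181, 184)] 23 8400 = true := by decide +kernel

end Pool.Agent.Helper79_UR
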