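import Pool.Agent.Helper79_UR.Calc

/-!
# FIN (MP_c97607_co): kernel computation
-/

namespace Pool.Agent.Helper79_UR

theorem k03c :
    chunk 512 8400 461 102 75 45 7 10623 [2, 3, 5, 9, 17, 33, 66, 132, 263, 525, 1050, 2100, 4200, 8400] [(23, 6, 8, 11), (29, 32, 11, 14), (61, 73, 11, 13), (134, 128, 85, 96), (262, 292, 141, 154), (554, 952, 181, 191), (1506, 6894, 52, 53)] 23 8400 = true := by decide +kernel

end Pool.Agent.Helper79_UR
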