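import Pool.Agent.Helper79_UR.Calc

/-!
# FIN (MP_c97607_co): kernel computation
-/

namespace Pool.Agent.Helper79_UR

theorem k04b :
    chunk 512 8400 461 88 75 61 9 10837 [2, 3, 5, 9, 17, 33, 66, 132, 263, 525, 1050, 2100, 4200, 8400] [(25, 12, 3, 4), (37, 47, 13, 16), (84, 87, 44, 51), (171, 138, 103, 115), (309, 220, 45, 49), (529, 436, 133, 142), (965, 1317, 151, 158), (2282, 6118, 46, 47)] 25 8400 = true := by decide +kernel

end Pool.Agent.Helper79_UR
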