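import Pool.Agent.Helper79_UR.Calc

/-!
# FIN (MP_c97607_co): kernel computation
-/

namespace Pool.Agent.Helper79_UR

theorem k05b :
    chunk 512 8400 461 73 75 90 11 10815 [2, 3, 5, 9, 17, 33, 66, 132, 263, 525, 1050, 2100, 4200, 8400] [(49, 61, 5, 6), (110, 101, 113, 129), (211, 157, 66, 73), (368, 228, 85, 92), (596, 339, 137, 146), (935, 580, 172, 181), (1515, 1466, 127, 132), (2981, 5419, 127, 130)] 49 8400 = true := by decide +kernel

end Pool.Agent.Helper79_UR
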