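import Pool.Agent.Helper79_UR.Calc

/-!
# FIN (MP_c97607_co): kernel computation
-/

namespace Pool.Agent.Helper79_UR

theorem k06b :
    chunk 512 8400 461 64 75 127 14 10997 [2, 3, 5, 9, 17, 33, 66, 132, 263, 525, 1050, 2100, 4200, 8400] [(110, 27, 6, 7), (137, 119, 70, 79), (256, 177, 72, 79), (433, 252, 170, 183), (685, 347, 178, 189), (1032, 482, 59, 62), (1514, 752, 119, 124), (2266, 1520, 119, 123), (3786, 4614, 167, 171)] 110 8400 = true := by decide +kernel

end Pool.Agent.Helper79_UR
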