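import Pool.Agent.Helper79_UR.Calc

/-!
# FIN (MP_c97607_co): kernel computation
-/

namespace Pool.Agent.Helper79_UR

theorem k07a :
    chunk 512 8400 461 64 75 155 18 10831 [2, 3, 5, 9, 17, 33, 66, 132, 263, 525, 1050, 2100, 4200, 8400] [(212, 89, 9, 10), (301, 195, 155, 169), (496, 276, 181, 194), (772, 373, 154, 163), (1145, 491, 103, 108), (1636, 655, 171, 178), (2291, 930, 173, 179), (3221, 1570, 69, 71), (4791, 3609, 131, 134)] 212 8400 = true := by decide +kernel

end Pool.Agent.Helper79_UR
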