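import Pool.Agent.Helper79_UR.Calc

/-!
# FIN (MP_c97607_co): kernel computation
-/

namespace Pool.Agent.Helper79_UR

theorem k08c :
    chunk 512 8400 461 64 75 252 21 10843 [2, 3, 5, 9, 17, 33, 66, 132, 263, 525, 1050, 2100, 4200, 8400] [(594, 232, 15, 16), (826, 387, 53, 56), (1213, 510, 127, 133), (1723, 655, 25, 26), (2378, 815, 175, 181), (3193, 1080, 101, 104), (4273, 1524, 39, 40), (5797, 2603, 46, 47)] 594 8400 = true := by decide +kernel

end Pool.Agent.Helper79_UR
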