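import Pool.Agent.Helper79_UR.Calc

/-!
# FIN (MP_c97607_co): kernel computation
-/

namespace Pool.Agent.Helper79_UR

theorem k09c :
    chunk 512 8400 461 64 75 325 25 10663 [2, 3, 5, 9, 17, 33, 66, 132, 263, 525, 1050, 2100, 4200, 8400] [(904, 172, 17, 18), (1076, 454, 20, 21), (1530, 601, 189, 197), (2131, 758, 83, 86), (2889, 929, 32, 33), (3818, 1161, 183, 188), (4979, 1436, 125, 128), (6415, 1985, 142, 145)] 904 8400 = true := by decide +kernel

end Pool.Agent.Helper79_UR
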