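import Pool.Agent.Helper79_UR.Calc

/-!
# FIN (MP_c97607_co): kernel computation
-/

namespace Pool.Agent.Helper79_UR

theorem k10a :
    chunk 512 8400 461 64 75 350 31 10563 [2, 3, 5, 9, 17, 33, 66, 132, 263, 525, 1050, 2100, 4200, 8400] [(1317, 334, 21, 22), (1651, 634, 49, 51), (2285, 796, 143, 148), (3081, 977, 33, 34), (4058, 1195, 113, 116), (5253, 1440, 128, 131), (6693, 1707, 48, 49)] 1317 8400 = true := by decide +kernel

end Pool.Agent.Helper79_UR
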