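import Pool.Agent.Helper79_UR.Calc

/-!
# FIN (MP_c97607_co): kernel computation
-/

namespace Pool.Agent.Helper79_UR

theorem k11a :
    chunk 512 8400 461 64 75 443 35 10203 [2, 3, 5, 9, 17, 33, 66, 132, 263, 525, 1050, 2100, 4200, 8400] [(2493, 628, 29, 30), (3121, 956, 166, 171), (4077, 1201, 151, 155), (5278, 1428, 171, 175), (6706, 1694, 48, 49)] 2493 8400 = true := by decide +kernel

end Pool.Agent.Helper79_UR
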