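import Pool.Agent.Helper79_UR.Calc

/-!
# FIN (MP_c97607_co): kernel computation
-/

namespace Pool.Agent.Helper79_UR

theorem k12a :
    chunk 512 8400 461 64 75 548 38 10111 [2, 3, 5, 9, 17, 33, 66, 132, 263, 525, 1050, 2100, 4200, 8400] [(4193, 1085, 38, 39), (5278, 1430, 171, 175), (6708, 1692, 48, 49)] 4193 8400 = true := by decide +kernel

end Pool.Agent.Helper79_UR
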