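import Pool.Agent.Helper79_UR.Calc

/-!
# FIN (MP_c97607_co): kernel computation
-/

namespace Pool.Agent.Helper79_UR

theorem ks02 :
    chunk 64 36 22 7 5 2 1 47 [2, 3, 5, 9, 18, 36] [(35, 1, 1, 1)] 35 36 = true := by decide +kernel

theorem ks03 :
    chunk 64 36 22 6 5 3 1 47 [2, 3, 5, 9, 18, 36] [(34, 2, 1, 1)] 34 36 = true := by decide +kernel

theorem ks04 :
    chunk 64 36 22 6 5 4 1 47 [2, 3, 5, 9, 18, 36] [(33, 3, 1, 1)] 33 36 = true := by decide +kernel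

theorem ks05 :
    chunk 64 36 22 5 5 5 1 43 [2, 3, 5, 9, 18, 36] [(32, 4, 3, 4)] 32 36 = true := by decide +kernel

theorem ks06 :
    chunk 64 36 22 5 5 6 1 43 [2, 3, 5, 9, 18, 36] [(31, 5, 3, 4)] 31 36 = true := by decide +kernel

theorem ks07 :
    chunk 64 36 22 4 5 7 1 43 [2, 3, 5, 9, 18, 36] [(30, 6, 3, 4)] 30 36 = true := by decide +kernel

theorem ks08 :
    chunk 64 36 22 4 5 8 1 43 [2, 3, 5, 9, 18, 36] [(29, 7, 3, 4)] 29 36 = true := by decide +kernel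

theorem ks09 :
    chunk 64 36 22 4 5 9 1 43 [2, 3, 5, 9, 18, 36] [(28, 8, 3, 4)] 28 36 = true := by decide +kernel

theorem ks10 :
    chunk 64 36 22 4 5 10 1 39 [2, 3, 5, 9, 18, 36] [(27, 9, 3, 4)] 27 36 = true := by decide +kernel

theorem ks11 :
    chunk 64 36 22 4 5 11 1 39 [2, 3, 5, 9, 18, 36] [(26, 10, 3, 4)] 26 36 = true := by decide +kernel

theorem ks12 :
    chunk 64 36 22 4 5 12 1 39 [2, 3, 5, 9, 18, 36] [(25, 11, 3, 4)] 25 36 = true := by decide +kernel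

theorem ks13 :
    chunk 64 36 22 4 5 13 1 39 [2, 3, 5, 9, 18, 36] [(24, 12, 3, 4)] 24 36 = true := by decide +kernel

end Pool.Agent.Helper79_UR
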