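import Pool.Agent.Helper79_UR.Calc

/-!
# FIN (MP_c97607_co): kernel computation
-/

namespace Pool.Agent.Helper79_UR

theorem kt1 :
    tailc 512 8400 461 94 75 42 12586 [2, 3, 5, 9, 17, 33, 66, 132, 263, 525, 1050, 2100, 4200, 8400] [(42, 23, 2, 8, 11), (58, 25, 24, 10, 13), (87, 49, 61, 5, 6)] = true := by decide +kernel

end Pool.Agent.Helper79_UR
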