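import Pool.Agent.Helper79_UR.Calc

/-!
# FIN (MP_c97607_co): kernel computation
-/

namespace Pool.Agent.Helper79_UR

theorem kt3 :
    tailc 512 8400 461 64 75 201 10140 [2, 3, 5, 9, 17, 33, 66, 132, 263, 525, 1050, 2100, 4200, 8400] [(201, 369, 225, 85, 92), (248, 594, 310, 106, 113)] = true := by decide +kernel

end Pool.Agent.Helper79_UR
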