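import Pool.Agent.Helper79_UR.Calc

/-!
# FIN (MP_c97607_co): kernel computation
-/

namespace Pool.Agent.Helper79_UR

theorem kt5 :
    tailc 512 8400 461 64 75 472 11512 [2, 3, 5, 9, 17, 33, 66, 132, 263, 525, 1050, 2100, 4200, 8400] [(472, 2493, 794, 149, 154), (532, 3287, 906, 34, 35), (595, 4193, 1055, 191, 196), (655, 5248, 1105, 85, 87)] = true := by decide +kernel

end Pool.Agent.Helper79_UR
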