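import Pool.Agent.Helper79_UR.Tail
import Pool.Agent.Helper79_UR.K00
import Pool.Agent.Helper79_UR.KS
import Pool.Agent.Helper79_UR.K01a
import Pool.Agent.Helper79_UR.K01b
import Pool.Agent.Helper79_UR.K01c
import Pool.Agent.Helper79_UR.K02a
import Pool.Agent.Helper79_UR.K02b
import Pool.Agent.Helper79_UR.K02c
import Pool.Agent.Helper79_UR.K03a
import Pool.Agent.Helper79_UR.K03b
import Pool.Agent.Helper79_UR.K03c
import Pool.Agent.Helper79_UR.K04a
import Pool.Agent.Helper79_UR.K04b
import Pool.Agent.Helper79_UR.K04c
import Pool.Agent.Helper79_UR.K05a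
import Pool.Agent.Helper79_UR.K05b
import Pool.Agent.Helper79_UR.K05c
import Pool.Agent.Helper79_UR.K06a
import Pool.Agent.Helper79_UR.K06b
import Pool.Agent.Helper79_UR.K06c
import Pool.Agent.Helper79_UR.K07a
import Pool.Agent.Helper79_UR.K07b
import Pool.Agent.Helper79_UR.K07c
import Pool.Agent.Helper79_UR.K08a
import Pool.Agent.Helper79_UR.K08b
import Pool.Agent.Helper79_UR.K08c
import Pool.Agent.Helper79_UR.K09a
import Pool.Agent.Helper79_UR.K09b
import Pool.Agent.Helper79_UR.K09c
import Pool.Agent.Helper79_UR.K10a
import Pool.Agent.Helper79_UR.K10b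
import Pool.Agent.Helper79_UR.K10c
import Pool.Agent.Helper79_UR.K11a
import Pool.Agent.Helper79_UR.K11b
import Pool.Agent.Helper79_UR.K11c
import Pool.Agent.Helper79_UR.K12a
import Pool.Agent.Helper79_UR.K12b
import Pool.Agent.Helper79_UR.K12c
import Pool.Agent.Helper79_UR.K13a
import Pool.Agent.Helper79_UR.K13b
import Pool.Agent.Helper79_UR.K13c
import Pool.Agent.Helper79_UR.KT1
import Pool.Agent.Helper79_UR.KT2
import Pool.Agent.Helper79_UR.KT3
import Pool.Agent.Helper79_UR.KT4
import Pool.Agent.Helper79_UR.KT5
import Pool.Agent.Helper79_UR.KT6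

/-!
# FIN (MP_c97607_co): the finite check, assembly
-/

namespace Pool.Agent.Helper79_UR

open Pool.Agent.Helper21_UR

section

variable (hC : CoefStatement) (hP : P2Statement) (hM : MonoStatement) (hS : SymmStatement)

include hC hP hM

theorem tl1 : ∀ m, 42 ≤ m → ∀ N, 23 ≤ N → N < 25 → Good m N := by
  intro m hm N h1 h2
  exact tail_sound hC hP hM kt1 (42, 23, 2, 8, 11) (by simp) m hm N h1 h2

theorem tl2 : ∀ m, 58 ≤ m → ∀ N, 23 ≤ N → N < 49 → Good m N := by
  intro m hm N h1 h2
  by_cases h : N < 25
  · exact tl1 hC hP hM m (by omega) N h1 h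
  · exact tail_sound hC hP hM kt1 (58, 25, 24, 10, 13) (by simp) m hm N (by simpa using h) h2

theorem tl3 : ∀ m, 87 ≤ m → ∀ N, 23 ≤ N → N < 110 → Good m N := by
  intro m hm N h1 h2
  by_cases h : N < 49
  · exact tl2 hC hP hM m (by omega) N h1 h
  · exact tail_sound hC hP hM kt1 (87, 49, 61, 5, 6) (by simp) m hm N (by simpa using h) h2

theorem tl4 : ∀ m, 121 ≤ m → ∀ N, 23 ≤ N → N < 212 → Good m N := by
  intro m hm N h1 h2
  by_cases h : N < 110
  · exact tl3 hC hP hM m (by omega) N h1 h
  · exact tail_sound hC hP hM kt2 (121, 110, 102, 106, 121) (by simp) m hm N (by simpa using h) h2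

theorem tl5 : ∀ m, 159 ≤ m → ∀ N, 23 ≤ N → N < 369 → Good m N := by
  intro m hm N h1 h2
  by_cases h : N < 212
  · exact tl4 hC hP hM m (by omega) N h1 h
  · exact tail_sound hC hP hM kt2 (159, 212, 157, 85, 94) (by simp) m hm N (by simpa using h) h2

theorem tl6 : ∀ m, 201 ≤ m → ∀ N, 23 ≤ N → N < 594 → Good m N := by
  intro m hm N h1 h2
  by_cases h : N < 369
  · exact tl5 hC hP hM m (by omega) N h1 h
  · exact tail_sound hC hP hM kt3 (201, 369, 225, 85, 92) (by simp) m hm N (by simpa using h) h2

theorem tl7 : ∀ m, 248 ≤ m → ∀ N, 23 ≤ N → N < 904 → Good m N := by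
  intro m hm N h1 h2
  by_cases h : N < 594
  · exact tl6 hC hP hM m (by omega) N h1 h
  · exact tail_sound hC hP hM kt3 (248, 594, 310, 106, 113) (by simp) m hm N (by simpa using h) h2

theorem tl8 : ∀ m, 299 ≤ m → ∀ N, 23 ≤ N → N < 1317 → Good m N := by
  intro m hm N h1 h2
  by_cases h : N < 904
  · exact tl7 hC hP hM m (by omega) N h1 h
  · exact tail_sound hC hP hM kt4 (299, 904, 413, 129, 136) (by simp) m hm N (by simpa using h) h2

theorem tl9 : ∀ m, 353 ≤ m → ∀ N, 23 ≤ N → N < 1834 → Good m N := by
  intro m hm N h1 h2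
  by_cases h : N < 1317
  · exact tl8 hC hP hM m (by omega) N h1 h
  · exact tail_sound hC hP hM kt4 (353, 1317, 517, 22, 23) (by simp) m hm N (by simpa using h) h2

theorem tl10 : ∀ m, 411 ≤ m → ∀ N, 23 ≤ N → N < 2493 → Good m N := by
  intro m hm N h1 h2
  by_cases h : N < 1834
  · exact tl9 hC hP hM m (by omega) N h1 h
  · exact tail_sound hC hP hM kt4 (411, 1834, 659, 103, 107) (by simp) m hm N (by simpa using h) h2

theorem tl11 : ∀ m, 472 ≤ m → ∀ N, 23 ≤ N → N < 3287 → Good m N := by
  intro m hm N h1 h2
  by_cases h : N < 2493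
  · exact tl10 hC hP hM m (by omega) N h1 h
  · exact tail_sound hC hP hM kt5 (472, 2493, 794, 149, 154) (by simp) m hm N (by simpa using h) h2

theorem tl12 : ∀ m, 532 ≤ m → ∀ N, 23 ≤ N → N < 4193 → Good m N := by
  intro m hm N h1 h2
  by_cases h : N < 3287
  · exact tl11 hC hP hM m (by omega) N h1 h
  · exact tail_sound hC hP hM kt5 (532, 3287, 906, 34, 35) (by simp) m hm N (by simpa using h) h2

theorem tl13 : ∀ m, 595 ≤ m → ∀ N, 23 ≤ N → N < 5248 → Good m N := by
  intro m hm N h1 h2
  by_cases h : N < 4193
  · exact tl12 hC hP hM m (by omega) N h1 h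
  · exact tail_sound hC hP hM kt5 (595, 4193, 1055, 191, 196) (by simp) m hm N (by simpa using h) h2

theorem tl14 : ∀ m, 655 ≤ m → ∀ N, 23 ≤ N → N < 6353 → Good m N := by
  intro m hm N h1 h2
  by_cases h : N < 5248
  · exact tl13 hC hP hM m (by omega) N h1 h
  · exact tail_sound hC hP hM kt5 (655, 5248, 1105, 85, 87) (by simp) m hm N (by simpa using h) h2

theorem tl15 : ∀ m, 709 ≤ m → ∀ N, 23 ≤ N → N < 7446 → Good m N := by
  intro m hm N h1 h2
  by_cases h : N < 6353
  · exact tl14 hC hP hM m (by omega) N h1 h
  · exact tail_sound hC hP hM kt6 (709, 6353, 1093, 93, 95) (by simp) m hm N (by simpa using h) h2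

theorem tl16 : ∀ m, 753 ≤ m → ∀ N, 23 ≤ N → N < 8400 → Good m N := by
  intro m hm N h1 h2
  by_cases h : N < 7446
  · exact tl15 hC hP hM m (by omega) N h1 h
  · exact tail_sound hC hP hM kt6 (753, 7446, 954, 50, 51) (by simp) m hm N (by simpa using h) h2

include hS

theorem good_all : ∀ m N, 23 ≤ N → N < 8400 → 37 ≤ N + m → Good m N := by
  intro m N h1 h2 h3
  rcases Nat.eq_zero_or_pos m with rfl | hm
  · exact zero_sound hC hP hS k00 N (by omega) h2
  by_cases hs : m < 14 ∧ N < 36
  · obtain ⟨hs1, hs2⟩ := hs
    interval_cases m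
    · omega
    · exact chunk_sound hC hP ks02 2 le_rfl (by norm_num) N (by omega) hs2
    · exact chunk_sound hC hP ks03 3 le_rfl (by norm_num) N (by omega) hs2
    · exact chunk_sound hC hP ks04 4 le_rfl (by norm_num) N (by omega) hs2
    · exact chunk_sound hC hP ks05 5 le_rfl (by norm_num) N (by omega) hs2
    · exact chunk_sound hC hP ks06 6 le_rfl (by norm_num) N (by omega) hs2
    · exact chunk_sound hC hP ks07 7 le_rfl (by norm_num) N (by omega) hs2
    · exact chunk_sound hC hP ks08 8 le_rfl (by norm_num) N (by omega) hs2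
    · exact chunk_sound hC hP ks09 9 le_rfl (by norm_num) N (by omega) hs2
    · exact chunk_sound hC hP ks10 10 le_rfl (by norm_num) N (by omega) hs2
    · exact chunk_sound hC hP ks11 11 le_rfl (by norm_num) N (by omega) hs2
    · exact chunk_sound hC hP ks12 12 le_rfl (by norm_num) N (by omega) hs2
    · exact chunk_sound hC hP ks13 13 le_rfl (by norm_num) N (by omega) hs2
  by_cases c1 : m < 14
  · by_cases e1 : m < 6
    · exact chunk_sound hC hP k01a m (by omega) (by omega) N (by omega) h2
    by_cases e2 : m < 10
    · exact chunk_sound hC hP k01b m (by omega) (by omega) N (by omega) h2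
    exact chunk_sound hC hP k01c m (by omega) (by omega) N (by omega) h2
  by_cases c2 : m < 31
  · by_cases e1 : m < 20
    · exact chunk_sound hC hP k02a m (by omega) (by omega) N (by omega) h2
    by_cases e2 : m < 26
    · exact chunk_sound hC hP k02b m (by omega) (by omega) N (by omega) h2
    exact chunk_sound hC hP k02c m (by omega) (by omega) N (by omega) h2
  by_cases c3 : m < 52
  · by_cases e1 : m < 38
    · exact chunk_sound hC hP k03a m (by omega) (by omega) N (by omega) h2
    by_cases e2 : m < 45
    · exact chunk_sound hC hP k03b m (by omega) (by omega) N (by omega) h2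
    exact chunk_sound hC hP k03c m (by omega) (by omega) N (by omega) h2
  by_cases c4 : m < 79
  · by_cases d4 : N < 25
    · exact tl1 hC hP hM m (by omega) N h1 d4
    · by_cases e1 : m < 61
      · exact chunk_sound hC hP k04a m (by omega) (by omega) N (by omega) h2
      by_cases e2 : m < 70
      · exact chunk_sound hC hP k04b m (by omega) (by omega) N (by omega) h2
      exact chunk_sound hC hP k04c m (by omega) (by omega) N (by omega) h2
  by_cases c5 : m < 112
  · by_cases d5 : N < 49
    · exact tl2 hC hP hM m (by omega) N h1 d5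
    · by_cases e1 : m < 90
      · exact chunk_sound hC hP k05a m (by omega) (by omega) N (by omega) h2
      by_cases e2 : m < 101
      · exact chunk_sound hC hP k05b m (by omega) (by omega) N (by omega) h2
      exact chunk_sound hC hP k05c m (by omega) (by omega) N (by omega) h2
  by_cases c6 : m < 155
  · by_cases d6 : N < 110
    · exact tl3 hC hP hM m (by omega) N h1 d6
    · by_cases e1 : m < 127
      · exact chunk_sound hC hP k06a m (by omega) (by omega) N (by omega) h2
      by_cases e2 : m < 141
      · exact chunk_sound hC hP k06b m (by omega) (by omega) N (by omega) h2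
      exact chunk_sound hC hP k06c m (by omega) (by omega) N (by omega) h2
  by_cases c7 : m < 208
  · by_cases d7 : N < 212
    · exact tl4 hC hP hM m (by omega) N h1 d7
    · by_cases e1 : m < 173
      · exact chunk_sound hC hP k07a m (by omega) (by omega) N (by omega) h2
      by_cases e2 : m < 191
      · exact chunk_sound hC hP k07b m (by omega) (by omega) N (by omega) h2
      exact chunk_sound hC hP k07c m (by omega) (by omega) N (by omega) h2
  by_cases c8 : m < 273
  · by_cases d8 : N < 594
    · exact tl6 hC hP hM m (by omega) N h1 d8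
    · by_cases e1 : m < 230
      · exact chunk_sound hC hP k08a m (by omega) (by omega) N (by omega) h2
      by_cases e2 : m < 252
      · exact chunk_sound hC hP k08b m (by omega) (by omega) N (by omega) h2
      exact chunk_sound hC hP k08c m (by omega) (by omega) N (by omega) h2
  by_cases c9 : m < 350
  · by_cases d9 : N < 904
    · exact tl7 hC hP hM m (by omega) N h1 d9
    · by_cases e1 : m < 299
      · exact chunk_sound hC hP k09a m (by omega) (by omega) N (by omega) h2
      by_cases e2 : m < 325
      · exact chunk_sound hC hP k09b m (by omega) (by omega) N (by omega) h2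
      exact chunk_sound hC hP k09c m (by omega) (by omega) N (by omega) h2
  by_cases c10 : m < 443
  · by_cases d10 : N < 1317
    · exact tl8 hC hP hM m (by omega) N h1 d10
    · by_cases e1 : m < 381
      · exact chunk_sound hC hP k10a m (by omega) (by omega) N (by omega) h2
      by_cases e2 : m < 412
      · exact chunk_sound hC hP k10b m (by omega) (by omega) N (by omega) h2
      exact chunk_sound hC hP k10c m (by omega) (by omega) N (by omega) h2
  by_cases c11 : m < 548
  · by_cases d11 : N < 2493
    · exact tl10 hC hP hM m (by omega) N h1 d11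
    · by_cases e1 : m < 478
      · exact chunk_sound hC hP k11a m (by omega) (by omega) N (by omega) h2
      by_cases e2 : m < 513
      · exact chunk_sound hC hP k11b m (by omega) (by omega) N (by omega) h2
      exact chunk_sound hC hP k11c m (by omega) (by omega) N (by omega) h2
  by_cases c12 : m < 661
  · by_cases d12 : N < 4193
    · exact tl12 hC hP hM m (by omega) N h1 d12
    · by_cases e1 : m < 586
      · exact chunk_sound hC hP k12a m (by omega) (by omega) N (by omega) h2
      by_cases e2 : m < 624
      · exact chunk_sound hC hP k12b m (by omega) (by omega) N (by omega) h2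
      exact chunk_sound hC hP k12c m (by omega) (by omega) N (by omega) h2
  by_cases c13 : m < 753
  · by_cases d13 : N < 6353
    · exact tl14 hC hP hM m (by omega) N h1 d13
    · by_cases e1 : m < 692
      · exact chunk_sound hC hP k13a m (by omega) (by omega) N (by omega) h2
      by_cases e2 : m < 723
      · exact chunk_sound hC hP k13b m (by omega) (by omega) N (by omega) h2
      exact chunk_sound hC hP k13c m (by omega) (by omega) N (by omega) h2
  · exact tl16 hC hP hM m (by omega) N h1 h2

end

theorem fin (hC : CoefStatement) (hP : P2Statement) (hM : MonoStatement) (hS : SymmStatement) :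
    FinStatement := by
  intro m n h1 h2 h3
  have h := good_all hC hP hM hS m (n - m) (by omega) (by omega) (by omega)
  unfold Good at h
  rwa [Nat.sub_add_cancel (by omega)] at h

end Pool.Agent.Helper79_UR
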