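import Mathlib.Data.Nat.Notation

/-!
# FIN (MP_c97607_co): the finite check by kernel arithmetic with packed integers

A sequence `f 0, f 1, ...` is packed into the natural number `∑ f i * 2 ^ (w * i)`.
-/

namespace Pool.Agent.Helper79_UR

/-- mask of `n` slots of `w` bits -/
def msk (w n : ℕ) : ℕ := Nat.sub (Nat.pow 2 (Nat.mul w n)) 1

/-- shift to the left by `s` slots -/
def lsh (w x s : ℕ) : ℕ := Nat.shiftLeft x (Nat.mul w s)

/-- shift to the right by `s` slots -/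
def rsh (w x s : ℕ) : ℕ := Nat.shiftRight x (Nat.mul w s)

/-- the slots `c, ..., c + d - 1` of `z` -/
def win (w z c d : ℕ) : ℕ := Nat.land (rsh w z c) (msk w d)

/-- `1` in each of `n` slots -/
def ones (w n : ℕ) : ℕ := Nat.div (msk w n) (Nat.sub (Nat.pow 2 w) 1)

def aK (k : ℕ) : ℕ := Nat.div (Nat.mul k (Nat.add (Nat.mul 3 k) 1)) 2
def bK (k : ℕ) : ℕ := Nat.div (Nat.mul (Nat.add k 1) (Nat.add (Nat.mul 3 k) 2)) 2

/-- positive part of the pentagonal series -/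
def eP (w : ℕ) : ℕ → ℕ
  | 0 => 0
  | k + 1 => Nat.add (eP w k)
      (Nat.pow 2 (Nat.mul w (cond (Nat.beq (Nat.mod k 2) 0) (aK k) (bK k))))

/-- negative part of the pentagonal series -/
def eN (w : ℕ) : ℕ → ℕ
  | 0 => 0
  | k + 1 => Nat.add (eN w k)
      (Nat.pow 2 (Nat.mul w (cond (Nat.beq (Nat.mod k 2) 0) (bK k) (aK k))))

/-- Newton iteration for the inverse of `D` -/
def nw (w D : ℕ) : List ℕ → ℕ → ℕ
  | [], z => z
  | p :: ps, z => nw w D ps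
      (Nat.land (Nat.mul z (Nat.sub (Nat.add 2 (Nat.pow 2 (Nat.mul w p)))
        (Nat.land (Nat.mul (Nat.land D (msk w p)) z) (msk w p)))) (msk w p))

/-- length of the `κ`-th list entry needed for rows `m ≥ m0` -/
def ell (L m0 κ : ℕ) : ℕ :=
  Nat.sub L (Nat.add (Nat.mul (Nat.sub κ 1) m0) (Nat.div (Nat.mul (Nat.sub κ 1) (Nat.add κ 2)) 2))

def nmin (a b : ℕ) : ℕ := cond (Nat.ble a b) a b

/-- computation of the list of the `B_κ` -/
def gloop (w L m0 Z ZT T2 : ℕ) : ℕ → ℕ → ℕ → List ℕ → (List ℕ → Bool) → Bool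
  | 0, _, _, bs, k => k bs
  | κ + 1, G, n, bs, k =>
    (fun n' a1 =>
      (Nat.ble a1 ZT) &&
      (fun G' => cond (Nat.beq (ell L m0 (κ + 1)) 0) (gloop w L m0 Z ZT T2 κ G' n' [] k)
        ((fun b1 => (Nat.ble b1 (Nat.add G' T2)) && ((Nat.ble (ell L m0 (κ + 1)) n') &&
          gloop w L m0 Z ZT T2 κ G' n'
            (Nat.land (Nat.sub (Nat.add G' T2) b1) (msk w (ell L m0 (κ + 1))) :: bs) k))
        (lsh w G' (κ + 1))))
      (Nat.land (Nat.add (Nat.sub ZT a1) (lsh w G (4 * (κ + 1) + 3))) (msk w n')))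
    (nmin (n + (4 * (κ + 1) + 3)) (ell L 0 (κ + 1)))
    (lsh w Z (2 * (κ + 1) + 1))

/-- Horner sum of the entries `κ, κ + 2, ...` -/
def hor (w m : ℕ) : ℕ → List ℕ → ℕ
  | _, [] => 0
  | _, [b] => b
  | κ, b :: _ :: bs => Nat.add b (lsh w (hor w m (κ + 2) bs) (2 * m + 2 * κ + 3))

def rowP (w TOP m : ℕ) (Bs : List ℕ) : ℕ := Nat.add (hor w m 1 Bs) TOP
def rowQ (w m : ℕ) (Bs : List ℕ) : ℕ := lsh w (hor w m 2 (List.tail Bs)) (m + 2)
def rowok (w TOP m : ℕ) (Bs : List ℕ) : Bool := Nat.ble (rowQ w m Bs) (rowP w TOP m Bs)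
def rowv (w TOP m : ℕ) (Bs : List ℕ) : ℕ := Nat.sub (rowP w TOP m Bs) (rowQ w m Bs)

/-- a block: `(c, len, a, b)`: the inequality `a² x + b² z < 2 a b y` is checked for
`c ≤ N < c + len`. -/
abbrev Blk := ℕ × ℕ × ℕ × ℕ

def slices (w : ℕ) : List Blk → ℕ → List ℕ
  | [], _ => []
  | t :: bl, z => win w z (Nat.sub t.1 2) (Nat.add t.2.1 2) :: slices w bl z

/-- the test of one block -/
def blk1 (w : ℕ) (t : Blk) (x y z : ℕ) : Bool :=
  Nat.beq (Nat.land (Nat.sub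
      (Nat.add (Nat.mul (Nat.mul 2 (Nat.mul t.2.2.1 t.2.2.2)) (rsh w y 1))
        (Nat.mul (Nat.sub (Nat.pow 2 (Nat.sub w 1)) 1) (ones w (Nat.add t.2.1 2))))
      (Nat.add (Nat.mul (Nat.mul t.2.2.1 t.2.2.1) (rsh w x 2))
        (Nat.mul (Nat.mul t.2.2.2 t.2.2.2) z)))
      (Nat.mul (Nat.pow 2 (Nat.sub w 1)) (ones w t.2.1)))
      (Nat.mul (Nat.pow 2 (Nat.sub w 1)) (ones w t.2.1))

def blk (w : ℕ) : List Blk → List ℕ → List ℕ → List ℕ → Bool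
  | [], _, _, _ => true
  | t :: bl, xs, ys, zs =>
    blk1 w t (xs.headD 0) (ys.headD 0) (zs.headD 0) && blk w bl xs.tail ys.tail zs.tail

def rloop (w TOP : ℕ) (bl : List Blk) (Bs : List ℕ) : ℕ → ℕ → List ℕ → List ℕ → Bool
  | 0, _, _, _ => true
  | cnt + 1, m, sx, sy =>
    rowok w TOP (m + 1) Bs &&
    (fun sz => blk w bl sx sy sz && rloop w TOP bl Bs cnt (m + 1) sy sz)
      (slices w bl (rowv w TOP (m + 1) Bs))

/-- base computation; the list is passed to `k` -/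
def base (w L S K np m0 : ℕ) (ps : List ℕ) (k : List ℕ → Bool) : Bool :=
  (Nat.ble (eN w np) (Nat.add (eP w np) (Nat.pow 2 (Nat.mul w (L + 2 * np))))) &&
  ((Nat.ble L (aK np)) && ((Nat.beq (ell L m0 (K + 1)) 0) &&
  (fun D => (fun Z =>
    (Nat.beq (Nat.land (Nat.mul D Z) (msk w L)) 1) &&
    ((Nat.beq (Nat.land Z (Nat.mul (Nat.sub (Nat.pow 2 S) 1) (ones w L))) Z) &&
    gloop w L m0 Z (Nat.add Z (Nat.pow 2 (Nat.mul w (L + 2 * K + 1)))) (Nat.pow 2 (Nat.mul w (L + K)))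
      K 0 0 [] k))
    (nw w D ps 1))
  ((fun EN => Nat.land (Nat.mul EN EN) (msk w L))
    (Nat.sub (Nat.add (eP w np) (Nat.pow 2 (Nat.mul w (L + 2 * np)))) (eN w np)))))

/-- the blocks are admissible for rows up to `M` and cover `lo ≤ N < hi` -/
def okbl (w L U : ℕ) : List Blk → ℕ → ℕ → Bool
  | [], lo, hi => (Nat.ble hi lo) && (Nat.ble U (Nat.pow 2 w))
  | t :: bl, lo, hi => (Nat.beq t.1 lo) && ((Nat.ble 2 lo) && ((Nat.ble (Nat.add t.1 t.2.1) L) &&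
      ((Nat.ble (Nat.add (Nat.mul (Nat.pow (Nat.add t.2.2.1 t.2.2.2) 2) U) 1)
        (Nat.pow 2 (Nat.sub w 1))) && okbl w L U bl (Nat.add t.1 t.2.1) hi)))

/-- parameters -/
def okpar (w L S TL : ℕ) : Bool :=
  (Nat.ble 1 w) && ((Nat.ble S w) && ((Nat.ble 1 L) && ((Nat.ble L TL) &&
    (Nat.ble (Nat.mul (Nat.pow (Nat.add L 1) 2) (Nat.pow 2 S)) (Nat.pow 2 w)))))

def ubd (L S M : ℕ) : ℕ := Nat.mul (Nat.pow (L + M + 2) 2) (Nat.pow 2 S)

/-- rows `m1, ..., m1 + cnt - 1` and `lo ≤ N < hi` -/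
def chunk (w L S K np m1 cnt TL : ℕ) (ps : List ℕ) (bl : List Blk) (lo hi : ℕ) : Bool :=
  (Nat.ble 1 m1) && ((okpar w L S TL) && ((okbl w L (ubd L S (m1 + cnt)) bl lo hi) &&
  base w L S K np (m1 - 1) ps (fun Bs =>
    (rowok w (Nat.pow 2 (Nat.mul w TL)) (m1 - 1) Bs) &&
    ((rowok w (Nat.pow 2 (Nat.mul w TL)) m1 Bs) &&
    rloop w (Nat.pow 2 (Nat.mul w TL)) bl Bs cnt m1
      (slices w bl (rowv w (Nat.pow 2 (Nat.mul w TL)) (m1 - 1) Bs))
      (slices w bl (rowv w (Nat.pow 2 (Nat.mul w TL)) m1 Bs))))))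

def slices0 (w : ℕ) : List Blk → ℕ → List ℕ
  | [], _ => []
  | t :: bl, z => lsh w (win w z (Nat.sub t.1 2) t.2.1) 2 :: slices0 w bl z

/-- row `0` -/
def zeroc (w L S K np TL : ℕ) (ps : List ℕ) (bl : List Blk) (lo hi : ℕ) : Bool :=
  (okpar w L S TL) && ((okbl w L (ubd L S 1) bl lo hi) &&
  base w L S K np 0 ps (fun Bs =>
    (rowok w (Nat.pow 2 (Nat.mul w TL)) 0 Bs) &&
    ((rowok w (Nat.pow 2 (Nat.mul w TL)) 1 Bs) &&
    (fun z => blk w bl (slices0 w bl z)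
      (slices w bl (rowv w (Nat.pow 2 (Nat.mul w TL)) 0 Bs)) (slices w bl z))
      (rowv w (Nat.pow 2 (Nat.mul w TL)) 1 Bs))))

def tloop (w TOP : ℕ) (Bs : List ℕ) : List (ℕ × Blk) → Bool
  | [] => true
  | t :: l => (rowok w TOP t.1 Bs) &&
      (((fun sa => blk w [t.2] sa (slices w [t.2] (rowv w TOP t.1 Bs)) sa)
        (slices w [t.2] (Bs.headD 0))) && tloop w TOP Bs l)

def oktl (w L U m0 : ℕ) : List (ℕ × Blk) → Bool
  | [] => true
  | t :: l => (Nat.ble m0 t.1) && ((Nat.ble t.1 L) && ((Nat.ble 1 t.1) &&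
      ((okbl w L U [t.2] t.2.1 (Nat.add t.2.1 t.2.2.1)) && oktl w L U m0 l)))

/-- all rows `m ≥ M` for `(M, block)` in `tl` -/
def tailc (w L S K np m0 TL : ℕ) (ps : List ℕ) (tl : List (ℕ × Blk)) : Bool :=
  (okpar w L S TL) && ((oktl w L (ubd L S L) m0 tl) &&
  base w L S K np m0 ps (fun Bs => tloop w (Nat.pow 2 (Nat.mul w TL)) Bs tl))

end Pool.Agent.Helper79_UR
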