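import Pool.Agent.Helper79_UR.Sound

/-!
# FIN (MP_c97607_co): soundness of the checks of rows
-/

namespace Pool.Agent.Helper79_UR

open PowerSeries Pool.Agent.Helper21_UR

/-- the inequality at `(m, N)`, `n = N + m` -/
def Good (m N : ℕ) : Prop :=
  u ((m : ℤ) - 1) (N + m) * u ((m : ℤ) + 1) (N + m) < u (m : ℤ) (N + m) ^ 2

/-! ## bound for `u` -/

theorem u_bound (hC : CoefStatement) (hP : P2Statement) {L S m i : ℕ}
    (hb : ∀ n < L, bp n n < 2 ^ S) (hi : i < L) :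
    u (m : ℤ) (i + (m + 1)) ≤ (i + m + 2) ^ 2 * 2 ^ S := by
  have h := hC (fun n => ((bp n n : ℕ) : ℤ)) (fun q hq => by simpa using hP q hq) m (i + (m + 1))
    (by omega)
  have h1 : (u (m : ℤ) (i + (m + 1)) : ℤ) ≤ ∑ k ∈ Finset.range (i + (m + 1) + 1),
      ∑ j ∈ Finset.range (i + (m + 1) + 1), (2 : ℤ) ^ S := by
    rw [h]
    refine Finset.sum_le_sum fun k _ => Finset.sum_le_sum fun j _ => ?_
    refine (le_abs_self _).trans ?_
    rw [abs_mul, abs_pow, abs_neg, abs_one, one_pow, one_mul]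
    have hE : m + 1 ≤ (k + 1) * (m + 1) := Nat.le_mul_of_pos_left _ (Nat.succ_pos k)
    have key : ∀ E : ℕ, m + 1 ≤ E →
        (0 : ℤ) ≤ (if E ≤ i + (m + 1) then
          ((bp (i + (m + 1) - E) (i + (m + 1) - E) : ℕ) : ℤ) else 0) ∧
        (if E ≤ i + (m + 1) then
          ((bp (i + (m + 1) - E) (i + (m + 1) - E) : ℕ) : ℤ) else 0) ≤ 2 ^ S := by
      intro E hE
      split_ifs with hc
      · refine ⟨by positivity, ?_⟩
        exact_mod_cast (hb _ (by omega)).le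
      · exact ⟨le_rfl, by positivity⟩
    have k1 := key ((k + 1) * (m + 1) + k * (k + 1) / 2 + j * (j + 1) / 2 + 2 * j * (k + 1))
      (by omega)
    have k2 := key ((k + 1) * (m + 1) + k * (k + 1) / 2 + j * (j + 1) / 2 + 2 * j * (k + 1) +
      (k + 1)) (by omega)
    rw [abs_le]
    constructor
    · linarith [k1.1, k2.2]
    · linarith [k1.2, k2.1]
  rw [Finset.sum_const, Finset.sum_const, Finset.card_range, smul_smul, nsmul_eq_mul] at h1
  have h2 : u (m : ℤ) (i + (m + 1)) ≤ ((i + (m + 1) + 1) * (i + (m + 1) + 1)) * 2 ^ S := by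
    exact_mod_cast h1
  refine h2.trans (le_of_eq ?_)
  ring

theorem ubd_eq (L S M : ℕ) : ubd L S M = (L + M + 2) ^ 2 * 2 ^ S := rfl

theorem u_lt (hC : CoefStatement) (hP : P2Statement) {L S M m i : ℕ}
    (hb : ∀ n < L, bp n n < 2 ^ S) (hi : i < L) (hm : m ≤ M) :
    u (m : ℤ) (i + (m + 1)) < ubd L S M := by
  refine lt_of_le_of_lt (u_bound hC hP hb hi) ?_
  rw [ubd_eq]
  exact Nat.mul_lt_mul_of_pos_right (Nat.pow_lt_pow_left (by omega) (by norm_num))
    (by positivity)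

theorem ubd_mono {L S M M' : ℕ} (h : M ≤ M') : ubd L S M ≤ ubd L S M' := by
  rw [ubd_eq, ubd_eq]
  exact Nat.mul_le_mul_right _ (Nat.pow_le_pow_left (by omega) 2)

/-! ## blocks -/

def okb (w L U : ℕ) (t : Blk) : Prop :=
  2 ≤ t.1 ∧ t.1 + t.2.1 ≤ L ∧ (t.2.2.1 + t.2.2.2) ^ 2 * U < 2 ^ (w - 1)

theorem okbl_spec {w L U : ℕ} : ∀ {bl : List Blk} {lo hi : ℕ}, okbl w L U bl lo hi = true →
    U ≤ 2 ^ w ∧ (∀ t ∈ bl, okb w L U t) ∧
      ∀ N, lo ≤ N → N < hi → ∃ t ∈ bl, t.1 ≤ N ∧ N < t.1 + t.2.1 := by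
  intro bl
  induction bl with
  | nil =>
    intro lo hi h
    simp only [okbl, Bool.and_eq_true] at h
    have h1 : hi ≤ lo := Nat.le_of_ble_eq_true h.1
    exact ⟨Nat.le_of_ble_eq_true h.2, by simp, fun N h2 h3 => by omega⟩
  | cons t bl ih =>
    intro lo hi h
    simp only [okbl, Bool.and_eq_true] at h
    obtain ⟨h1, h2, h3, h4, h5⟩ := h
    have h1' : t.1 = lo := Nat.eq_of_beq_eq_true h1
    have h2' : 2 ≤ lo := Nat.le_of_ble_eq_true h2
    have h3' : t.1 + t.2.1 ≤ L := Nat.le_of_ble_eq_true h3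
    have h4' : (t.2.2.1 + t.2.2.2) ^ 2 * U + 1 ≤ 2 ^ (w - 1) := Nat.le_of_ble_eq_true h4
    obtain ⟨i0, i1, i2⟩ := ih h5
    refine ⟨i0, ?_, ?_⟩
    · intro s hs
      rcases List.mem_cons.1 hs with rfl | hs
      · exact ⟨by omega, h3', by omega⟩
      · exact i1 s hs
    · intro N hN1 hN2
      by_cases hc : N < t.1 + t.2.1
      · exact ⟨t, List.mem_cons_self, by omega, hc⟩
      · obtain ⟨s, hs, hs2⟩ := i2 N (by show t.1 + t.2.1 ≤ N; omega) hN2
        exact ⟨s, List.mem_cons_of_mem _ hs, hs2⟩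

theorem slices_map (w : ℕ) (bl : List Blk) (z : ℕ) :
    slices w bl z = bl.map fun t => win w z (t.1 - 2) (t.2.1 + 2) := by
  induction bl with
  | nil => rfl
  | cons t bl ih => rw [slices, ih]; rfl

theorem slices0_map (w : ℕ) (bl : List Blk) (z : ℕ) :
    slices0 w bl z = bl.map fun t => lsh w (win w z (t.1 - 2) t.2.1) 2 := by
  induction bl with
  | nil => rfl
  | cons t bl ih => rw [slices0, ih]; rfl

theorem blk_map {w : ℕ} {fx fy fz : Blk → ℕ} : ∀ {bl : List Blk},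
    blk w bl (bl.map fx) (bl.map fy) (bl.map fz) = true →
    ∀ t ∈ bl, blk1 w t (fx t) (fy t) (fz t) = true := by
  intro bl
  induction bl with
  | nil => simp
  | cons t bl ih =>
    intro h s hs
    simp only [List.map_cons, blk, Bool.and_eq_true, List.headD_cons, List.tail_cons] at h
    rcases List.mem_cons.1 hs with rfl | hs
    · exact h.1
    · exact ih h.2 s hs

/-- the test of one block, with the digit functions of the three rows -/
theorem blk1_sound {w L U : ℕ} {t : Blk} {X Y Z : ℕ} {x y z : ℕ → ℕ} (hw : 0 < w)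
    (ht : okb w L U t) (hUw : U ≤ 2 ^ w)
    (hX : X % 2 ^ (w * L) = pk w x L) (hY : Y % 2 ^ (w * L) = pk w y L)
    (hZ : Z % 2 ^ (w * L) = pk w z L) (hx : ∀ i < L, x i < U) (hy : ∀ i < L, y i < U)
    (hz : ∀ i < L, z i < U)
    (h : blk1 w t (win w X (t.1 - 2) (t.2.1 + 2)) (win w Y (t.1 - 2) (t.2.1 + 2))
      (win w Z (t.1 - 2) (t.2.1 + 2)) = true) :
    ∀ N, t.1 ≤ N → N < t.1 + t.2.1 → x N * z (N - 2) < y (N - 1) ^ 2 := by
  intro N hN1 hN2
  obtain ⟨t1, t2, t3⟩ := ht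
  have hlt : ∀ f : ℕ → ℕ, (∀ i < L, f i < U) → ∀ i < L, f i < 2 ^ w :=
    fun f hf i hi => (hf i hi).trans_le hUw
  rw [pk_win hX (hlt x hx) (by omega), pk_win hY (hlt y hy) (by omega),
    pk_win hZ (hlt z hz) (by omega)] at h
  have h' := Nat.eq_of_beq_eq_true h
  have h2 := blk_sound (w := w) (d := t.2.1) (a := t.2.2.1) (b := t.2.2.2) (U := U) hw
    (fun i hi => hx _ (by omega)) (fun i hi => hy _ (by omega)) (fun i hi => hz _ (by omega)) t3 h'
    (N - t.1) (by omega)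
  have h3 := lin_quad h2
  have e1 : t.1 - 2 + (N - t.1 + 2) = N := by omega
  have e2 : t.1 - 2 + (N - t.1) = N - 2 := by omega
  have e3 : t.1 - 2 + (N - t.1 + 1) = N - 1 := by omega
  simp only [e1, e2, e3] at h3
  exact h3

/-- `m`-th row: digits -/
noncomputable def rw_ (m i : ℕ) : ℕ := u (m : ℤ) (i + (m + 1))

def RowD (w L m Z : ℕ) : Prop := Z % 2 ^ (w * L) = pk w (rw_ m) L

theorem good_of {m N : ℕ} (hm : 1 ≤ m) (hN : 2 ≤ N)
    (h : rw_ (m - 1) N * rw_ (m + 1) (N - 2) < rw_ m (N - 1) ^ 2) : Good m N := by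
  unfold rw_ at h
  unfold Good
  have e1 : N + (m - 1 + 1) = N + m := by omega
  have e2 : N - 2 + (m + 1 + 1) = N + m := by omega
  have e3 : N - 1 + (m + 1) = N + m := by omega
  have e4 : ((m - 1 : ℕ) : ℤ) = (m : ℤ) - 1 := by
    rw [Nat.cast_sub hm]; simp
  rw [e1, e2, e3, e4] at h
  exact_mod_cast h

theorem rowD_of (hC : CoefStatement) (hP : P2Statement) {w L S m0 m TL : ℕ} {Bs : List ℕ}
    (hb : ∀ n < L, bp n n < 2 ^ S) (hU : ubd L S m ≤ 2 ^ w)
    (hm : m0 ≤ m) (hB : BLi w L m0 1 Bs) (hTL : L ≤ TL)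
    (hok : rowok w (Nat.pow 2 (Nat.mul w TL)) m Bs = true) :
    RowD w L m (rowv w (Nat.pow 2 (Nat.mul w TL)) m Bs) := by
  refine pk_eq_of_rep (row_rep hC hP hm hB hTL hok) (fun i _ => ?_) fun i hi => ?_
  · simp [V, rw_]
  · exact (u_lt hC hP hb hi le_rfl).trans_le hU

theorem rloop_sound (hC : CoefStatement) (hP : P2Statement) {w L S M m0 TL : ℕ} {Bs : List ℕ}
    {bl : List Blk} (hw : 0 < w) (hb : ∀ n < L, bp n n < 2 ^ S) (hU : ubd L S M ≤ 2 ^ w)
    (hB : BLi w L m0 1 Bs) (hTL : L ≤ TL) (hbl : ∀ t ∈ bl, okb w L (ubd L S M) t) :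
    ∀ (cnt m X Y : ℕ), m0 + 1 ≤ m → m + cnt ≤ M → RowD w L (m - 1) X → RowD w L m Y →
    rloop w (Nat.pow 2 (Nat.mul w TL)) bl Bs cnt m (slices w bl X) (slices w bl Y) = true →
    ∀ m', m ≤ m' → m' < m + cnt → ∀ t ∈ bl, ∀ N, t.1 ≤ N → N < t.1 + t.2.1 → Good m' N := by
  intro cnt
  induction cnt with
  | zero => intro m X Y _ _ _ _ _ m' h1 h2; omega
  | succ cnt ih =>
    intro m X Y hm hM hX hY h m' h1 h2 t ht N hN1 hN2
    simp only [rloop, Bool.and_eq_true] at h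
    obtain ⟨r1, r2, r3⟩ := h
    have hZ : RowD w L (m + 1) (rowv w (Nat.pow 2 (Nat.mul w TL)) (m + 1) Bs) :=
      rowD_of hC hP hb ((ubd_mono (by omega)).trans hU) (by omega) hB hTL r1
    rcases Nat.eq_or_lt_of_le h1 with rfl | h1'
    · rw [slices_map, slices_map, slices_map] at r2
      have r4 := blk_map r2 t ht
      have h5 := blk1_sound hw (hbl t ht) hU hX hY hZ
        (fun i hi => u_lt hC hP hb hi (by omega)) (fun i hi => u_lt hC hP hb hi (by omega))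
        (fun i hi => u_lt hC hP hb hi (by omega)) r4 N hN1 hN2
      exact good_of (by omega) ((hbl t ht).1.trans hN1) h5
    · exact ih (m + 1) Y _ (by omega) (by omega) (by simpa using hY) hZ r3 m' (by omega)
        (by omega) t ht N hN1 hN2

theorem chunk_sound (hC : CoefStatement) (hP : P2Statement) {w L S K np m1 cnt TL lo hi : ℕ}
    {ps : List ℕ} {bl : List Blk} (h : chunk w L S K np m1 cnt TL ps bl lo hi = true) :
    ∀ m, m1 ≤ m → m < m1 + cnt → ∀ N, lo ≤ N → N < hi → Good m N := by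
  simp only [chunk, Bool.and_eq_true] at h
  obtain ⟨h1, h2, h3, h4⟩ := h
  have h1' : 1 ≤ m1 := Nat.le_of_ble_eq_true h1
  obtain ⟨o0, o1, o2⟩ := okbl_spec h3
  obtain ⟨hb, Bs, hB, hk⟩ := base_sound h2 h4
  simp only [Bool.and_eq_true] at hk
  obtain ⟨k1, k2, k3⟩ := hk
  simp only [okpar, Bool.and_eq_true] at h2
  obtain ⟨p1, p2, p3, p4, p5⟩ := h2
  have hw : 0 < w := Nat.le_of_ble_eq_true p1
  have hTL : L ≤ TL := Nat.le_of_ble_eq_true p4
  intro m hm1 hm2 N hN1 hN2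
  obtain ⟨t, ht, ht1, ht2⟩ := o2 N hN1 hN2
  exact rloop_sound hC hP hw hb o0 hB hTL o1 cnt m1 _ _ (by omega) le_rfl
    (rowD_of hC hP hb ((ubd_mono (by omega)).trans o0) le_rfl hB hTL k1)
    (rowD_of hC hP hb ((ubd_mono (by omega)).trans o0) (by omega) hB hTL k2) k3 m hm1 hm2
    t ht N ht1 ht2

theorem lsh_win_mod {w Z L : ℕ} {z : ℕ → ℕ} (hZ : Z % 2 ^ (w * L) = pk w z L)
    (hz : ∀ i < L, z i < 2 ^ w) {c d : ℕ} (hcd : c + d ≤ L) :
    lsh w (win w Z c d) 2 = pk w (fun i => if i < 2 then 0 else z (c + (i - 2))) (2 + d) := by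
  rw [pk_win hZ hz hcd, lsh_eq, pk_add_len]
  have h1 : pk w (fun i => if i < 2 then 0 else z (c + (i - 2))) 2 = 0 := by
    simp [pk, Finset.sum_range_succ]
  rw [h1, zero_add, mul_comm]
  congr 1
  refine pk_congr fun i _ => ?_
  rw [if_neg (by omega), Nat.add_sub_cancel_left]

theorem zero_sound (hC : CoefStatement) (hP : P2Statement) (hS : SymmStatement)
    {w L S K np TL lo hi : ℕ} {ps : List ℕ} {bl : List Blk}
    (h : zeroc w L S K np TL ps bl lo hi = true) : ∀ N, lo ≤ N → N < hi → Good 0 N := by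
  simp only [zeroc, Bool.and_eq_true] at h
  obtain ⟨h2, h3, h4⟩ := h
  obtain ⟨o0, o1, o2⟩ := okbl_spec h3
  obtain ⟨hb, Bs, hB, hk⟩ := base_sound h2 h4
  simp only [Bool.and_eq_true] at hk
  obtain ⟨k1, k2, k3⟩ := hk
  simp only [okpar, Bool.and_eq_true] at h2
  obtain ⟨p1, p2, p3, p4, p5⟩ := h2
  have hw : 0 < w := Nat.le_of_ble_eq_true p1
  have hTL : L ≤ TL := Nat.le_of_ble_eq_true p4
  intro N hN1 hN2
  obtain ⟨t, ht, ht1, ht2⟩ := o2 N hN1 hN2
  obtain ⟨t1, t2, t3⟩ := o1 t ht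
  have hY := rowD_of hC hP hb ((ubd_mono (by omega)).trans o0) le_rfl hB hTL k1
  have hZ := rowD_of hC hP hb ((ubd_mono (by omega)).trans o0) (Nat.zero_le 1) hB hTL k2
  unfold RowD at hY hZ
  have hy : ∀ i < L, rw_ 0 i < ubd L S 1 := fun i hi => u_lt hC hP hb hi (by omega)
  have hz : ∀ i < L, rw_ 1 i < ubd L S 1 := fun i hi => u_lt hC hP hb hi (by omega)
  rw [slices_map, slices_map, slices0_map] at k3
  have r4 := blk_map k3 t ht
  rw [lsh_win_mod hZ (fun i hi => (hz i hi).trans_le o0) (by omega),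
    pk_win hY (fun i hi => (hy i hi).trans_le o0) (by omega),
    pk_win hZ (fun i hi => (hz i hi).trans_le o0) (by omega), add_comm 2 t.2.1] at r4
  have r5 := Nat.eq_of_beq_eq_true r4
  have hUpos : 0 < ubd L S 1 := lt_of_le_of_lt (Nat.zero_le _) (hy 0 (by omega))
  have h6 := blk_sound (w := w) (d := t.2.1) (a := t.2.2.1) (b := t.2.2.2) (U := ubd L S 1) hw
    (fun i hi => by
      split_ifs
      · exact hUpos
      · exact hz _ (by omega))
    (fun i hi => hy _ (by omega)) (fun i hi => hz _ (by omega)) t3 r5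
    (N - t.1) (by omega)
  have h7 := lin_quad h6
  have e1 : ¬ (N - t.1 + 2 < 2) := by omega
  have e2 : t.1 - 2 + (N - t.1) = N - 2 := by omega
  have e3 : t.1 - 2 + (N - t.1 + 1) = N - 1 := by omega
  have e4 : t.1 - 2 + (N - t.1 + 2 - 2) = N - 2 := by omega
  simp only [if_neg e1, e2, e3, e4] at h7
  unfold rw_ at h7
  have e5 : N - 2 + (1 + 1) = N := by omega
  have e6 : N - 1 + (0 + 1) = N := by omega
  rw [e5, e6] at h7
  unfold Good
  rw [show (((0 : ℕ) : ℤ) - 1) = -1 by norm_num, hS 1 (N + 0)]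
  simpa using h7

end Pool.Agent.Helper79_UR
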