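import Mathlib
import Pool.Agent.Helper79_UR.Calc

/-!
# FIN (MP_c97607_co): packed sequences
-/

namespace Pool.Agent.Helper79_UR

open Finset

/-- the packed sequence `f 0, ..., f (n - 1)` -/
def pk (w : ℕ) (f : ℕ → ℕ) (n : ℕ) : ℕ := ∑ i ∈ range n, f i * 2 ^ (w * i)

theorem msk_eq (w n : ℕ) : msk w n = 2 ^ (w * n) - 1 := rfl

theorem lsh_eq (w x s : ℕ) : lsh w x s = x * 2 ^ (w * s) := by
  show x <<< (w * s) = _
  rw [Nat.shiftLeft_eq]

theorem rsh_eq (w x s : ℕ) : rsh w x s = x / 2 ^ (w * s) := by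
  show x >>> (w * s) = _
  rw [Nat.shiftRight_eq_div_pow]

theorem land_msk (x w n : ℕ) : Nat.land x (msk w n) = x % 2 ^ (w * n) := by
  show x &&& (2 ^ (w * n) - 1) = _
  rw [Nat.and_two_pow_sub_one_eq_mod]

theorem win_eq (w z c d : ℕ) : win w z c d = z / 2 ^ (w * c) % 2 ^ (w * d) := by
  rw [win, land_msk, rsh_eq]

theorem pk_zero (w : ℕ) (f : ℕ → ℕ) : pk w f 0 = 0 := by simp [pk]

theorem pk_succ (w : ℕ) (f : ℕ → ℕ) (n : ℕ) : pk w f (n + 1) = pk w f n + f n * 2 ^ (w * n) := by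
  simp [pk, sum_range_succ]

theorem pk_congr {w : ℕ} {f g : ℕ → ℕ} {n : ℕ} (h : ∀ i < n, f i = g i) : pk w f n = pk w g n := by
  unfold pk
  exact sum_congr rfl fun i hi => by rw [h i (mem_range.1 hi)]

theorem pk_lt {w : ℕ} {f : ℕ → ℕ} {n : ℕ} (h : ∀ i < n, f i < 2 ^ w) :
    pk w f n < 2 ^ (w * n) := by
  induction n with
  | zero => simp [pk]
  | succ n ih =>
    rw [pk_succ]
    have h1 := ih fun i hi => h i (by omega)
    have h2 : f n + 1 ≤ 2 ^ w := h n (by omega)
    have h3 : 2 ^ (w * (n + 1)) = 2 ^ w * 2 ^ (w * n) := by rw [← pow_add]; congr 1; ring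
    rw [h3]
    calc pk w f n + f n * 2 ^ (w * n) < 2 ^ (w * n) + f n * 2 ^ (w * n) := by omega
      _ = (f n + 1) * 2 ^ (w * n) := by ring
      _ ≤ 2 ^ w * 2 ^ (w * n) := Nat.mul_le_mul_right _ h2

theorem pk_add_len (w : ℕ) (f : ℕ → ℕ) (c d : ℕ) :
    pk w f (c + d) = pk w f c + 2 ^ (w * c) * pk w (fun i => f (c + i)) d := by
  unfold pk
  rw [sum_range_add, mul_sum]
  congr 1
  refine sum_congr rfl fun i _ => ?_
  rw [mul_add, pow_add]
  ring

theorem pk_mod {w : ℕ} {f : ℕ → ℕ} {L c : ℕ} (h : ∀ i < L, f i < 2 ^ w) (hc : c ≤ L) :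
    pk w f L % 2 ^ (w * c) = pk w f c := by
  obtain ⟨d, rfl⟩ := Nat.exists_eq_add_of_le hc
  rw [pk_add_len, Nat.add_mul_mod_self_left]
  exact Nat.mod_eq_of_lt (pk_lt fun i hi => h i (by omega))

theorem pk_win {w Z : ℕ} {f : ℕ → ℕ} {L c d : ℕ} (hZ : Z % 2 ^ (w * L) = pk w f L)
    (h : ∀ i < L, f i < 2 ^ w) (hcd : c + d ≤ L) :
    win w Z c d = pk w (fun i => f (c + i)) d := by
  have h1 : Z % 2 ^ (w * (c + d)) = pk w f (c + d) := by
    rw [← pk_mod h hcd, ← hZ, Nat.mod_mod_of_dvd]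
    exact pow_dvd_pow _ (Nat.mul_le_mul_left _ hcd)
  have h2 : 2 ^ (w * (c + d)) = 2 ^ (w * c) * 2 ^ (w * d) := by rw [← pow_add]; congr 1; ring
  rw [win_eq, ← Nat.mod_mul_right_div_self, ← h2, h1, pk_add_len,
    Nat.add_mul_div_left _ _ (by positivity),
    Nat.div_eq_of_lt (pk_lt fun i hi => h i (by omega)), zero_add]

theorem pk_testBit {w : ℕ} {f : ℕ → ℕ} {L k j : ℕ} (h : ∀ i < L, f i < 2 ^ w) (hk : k < L)
    (hj : j < w) : (pk w f L).testBit (w * k + j) = (f k).testBit j := by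
  have h1 : win w (pk w f L) k 1 = f k := by
    rw [pk_win (f := f) (L := L) (by rw [Nat.mod_eq_of_lt (pk_lt h)]) h (by omega)]
    simp [pk]
  rw [win_eq, mul_one] at h1
  rw [← h1, Nat.testBit_mod_two_pow, Nat.testBit_div_two_pow]
  simp [hj, add_comm]

theorem pk_mul (w c : ℕ) (f : ℕ → ℕ) (n : ℕ) : c * pk w f n = pk w (fun i => c * f i) n := by
  unfold pk
  rw [mul_sum]
  exact sum_congr rfl fun i _ => by ring

theorem pk_add (w : ℕ) (f g : ℕ → ℕ) (n : ℕ) :
    pk w f n + pk w g n = pk w (fun i => f i + g i) n := by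
  unfold pk
  rw [← sum_add_distrib]
  exact sum_congr rfl fun i _ => by ring

theorem pk_sub {w : ℕ} {f g : ℕ → ℕ} {n : ℕ} (h : ∀ i < n, g i ≤ f i) :
    pk w f n - pk w g n = pk w (fun i => f i - g i) n := by
  have h1 : pk w (fun i => f i - g i) n + pk w g n = pk w f n := by
    rw [pk_add]
    exact pk_congr fun i hi => Nat.sub_add_cancel (h i hi)
  omega

theorem pk_extend {w : ℕ} {f : ℕ → ℕ} {n d : ℕ} :
    pk w f n = pk w (fun i => if i < n then f i else 0) (n + d) := by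
  induction d with
  | zero => exact pk_congr fun i hi => by simp [hi]
  | succ d ih =>
    rw [← add_assoc, pk_succ, ← ih]
    simp

theorem ones_eq {w : ℕ} (hw : 0 < w) (n : ℕ) : ones w n = pk w (fun _ => 1) n := by
  have h1 : pk w (fun _ => 1) n = ∑ i ∈ range n, (2 ^ w) ^ i := by
    unfold pk
    exact sum_congr rfl fun i _ => by rw [one_mul, pow_mul]
  have h2 : 2 ≤ 2 ^ w := by
    calc 2 = 2 ^ 1 := rfl
      _ ≤ 2 ^ w := Nat.pow_le_pow_right (by norm_num) hw
  rw [h1, Nat.geomSum_eq h2]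
  show (2 ^ (w * n) - 1) / (2 ^ w - 1) = _
  rw [pow_mul]

theorem rsh_pk {w : ℕ} {f : ℕ → ℕ} {s n : ℕ} (h : ∀ i < s, f i < 2 ^ w) :
    rsh w (pk w f (s + n)) s = pk w (fun i => f (s + i)) n := by
  rw [rsh_eq, pk_add_len, Nat.add_mul_div_left _ _ (by positivity),
    Nat.div_eq_of_lt (pk_lt h), zero_add]

/-- the block test -/
theorem blk_sound {w d a b U : ℕ} {f g h : ℕ → ℕ} (hw : 0 < w)
    (hf : ∀ i < d + 2, f i < U) (hg : ∀ i < d + 2, g i < U) (hh : ∀ i < d + 2, h i < U)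
    (hU : (a + b) ^ 2 * U < 2 ^ (w - 1))
    (hc : Nat.land (Nat.sub
      (Nat.add (Nat.mul (Nat.mul 2 (Nat.mul a b)) (rsh w (pk w g (d + 2)) 1))
        (Nat.mul (Nat.sub (Nat.pow 2 (Nat.sub w 1)) 1) (ones w (Nat.add d 2))))
      (Nat.add (Nat.mul (Nat.mul a a) (rsh w (pk w f (d + 2)) 2))
        (Nat.mul (Nat.mul b b) (pk w h (d + 2)))))
      (Nat.mul (Nat.pow 2 (Nat.sub w 1)) (ones w d)) =
      Nat.mul (Nat.pow 2 (Nat.sub w 1)) (ones w d)) :
    ∀ i < d, a * a * f (i + 2) + b * b * h i < 2 * (a * b) * g (i + 1) := by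
  intro i hi
  have hUpos : 0 < U := lt_of_le_of_lt (Nat.zero_le _) (hf 0 (by omega))
  have hab : 0 < a + b ∨ (a = 0 ∧ b = 0) := by omega
  set H := 2 ^ (w - 1) with hH
  have h2H : 2 ^ w = 2 * H := by
    rw [hH, ← pow_succ']
    congr 1
    omega
  have hHpos : 0 < H := by positivity
  have hexp : (a + b) ^ 2 = a * a + b * b + 2 * (a * b) := by ring
  have hUw : (a * a + b * b) * U < H ∧ 2 * (a * b) * U < H := by
    rw [hexp] at hU
    constructor
    · exact lt_of_le_of_lt (Nat.mul_le_mul_right _ (by omega)) hU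
    · exact lt_of_le_of_lt (Nat.mul_le_mul_right _ (by omega)) hU
  by_cases hz : a = 0 ∧ b = 0
  · exfalso
    obtain ⟨rfl, rfl⟩ := hz
    have hc' : (H - 1) * ones w (d + 2) &&& H * ones w d = H * ones w d := by
      have : Nat.land (Nat.sub (Nat.add (Nat.mul (Nat.mul 2 (Nat.mul 0 0)) (rsh w (pk w g (d + 2)) 1))
        (Nat.mul (Nat.sub (Nat.pow 2 (Nat.sub w 1)) 1) (ones w (Nat.add d 2))))
        (Nat.add (Nat.mul (Nat.mul 0 0) (rsh w (pk w f (d + 2)) 2))
        (Nat.mul (Nat.mul 0 0) (pk w h (d + 2))))) (Nat.mul (Nat.pow 2 (Nat.sub w 1)) (ones w d)) =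
        ((2 * (0 * 0)) * (rsh w (pk w g (d + 2)) 1) + (H - 1) * ones w (d + 2) -
          (0 * 0 * (rsh w (pk w f (d + 2)) 2) + 0 * 0 * pk w h (d + 2))) &&& H * ones w d := rfl
      rw [this] at hc
      simpa using hc
    rw [ones_eq hw, ones_eq hw, pk_mul, pk_mul] at hc'
    have h1 := congrArg (fun t => Nat.testBit t (w * i + (w - 1))) hc'
    simp only [Nat.testBit_and] at h1
    rw [pk_testBit (L := d + 2) (fun i _ => by rw [mul_one, h2H]; omega) (by omega) (by omega),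
      pk_testBit (L := d) (fun i _ => by rw [mul_one, h2H]; omega) hi (by omega)] at h1
    rw [mul_one, mul_one, hH, Nat.testBit_two_pow_self, Bool.and_true] at h1
    have h3 := Nat.testBit_lt_two_pow (x := 2 ^ (w - 1) - 1) (i := w - 1) (by
      have : 0 < 2 ^ (w - 1) := by positivity
      omega)
    rw [h3] at h1
    exact absurd h1 (by simp)
  have hUle : U ≤ (a + b) ^ 2 * U := Nat.le_mul_of_pos_left _ (by
    have : 0 < a + b := by omega
    positivity)
  have hUw2 : U < 2 ^ w := by omega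
  have hA : 2 * (a * b) * rsh w (pk w g (d + 2)) 1 + (H - 1) * ones w (d + 2) =
      pk w (fun i => 2 * (a * b) * (if i < d + 1 then g (1 + i) else 0) + (H - 1)) (d + 2) := by
    rw [show d + 2 = 1 + (d + 1) by ring,
      rsh_pk (fun i hi => (hg i (by omega)).trans hUw2), ones_eq hw,
      pk_extend (n := d + 1) (d := 1), show d + 1 + 1 = 1 + (d + 1) by ring, pk_mul, pk_mul, pk_add]
    exact pk_congr fun i hi => by rw [mul_one]
  have hC : a * a * rsh w (pk w f (d + 2)) 2 + b * b * pk w h (d + 2) =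
      pk w (fun i => a * a * (if i < d then f (2 + i) else 0) + b * b * h i) (d + 2) := by
    have : rsh w (pk w f (d + 2)) 2 = pk w (fun i => if i < d then f (2 + i) else 0) (d + 2) := by
      rw [show d + 2 = 2 + d by ring, rsh_pk (fun i hi => (hf i (by omega)).trans hUw2),
        pk_extend (n := d) (d := 2), show d + 2 = 2 + d by ring]
    rw [this, pk_mul, pk_mul, pk_add]
  have hle : ∀ i < d + 2, a * a * (if i < d then f (2 + i) else 0) + b * b * h i ≤ H - 1 := by
    intro i hi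
    have h1 : (if i < d then f (2 + i) else 0) ≤ U := by
      split_ifs with h
      · exact (hf _ (by omega)).le
      · exact Nat.zero_le _
    have h2 : h i ≤ U := (hh i hi).le
    have h3 : a * a * (if i < d then f (2 + i) else 0) + b * b * h i ≤ (a * a + b * b) * U := by
      rw [add_mul]
      exact Nat.add_le_add (Nat.mul_le_mul_left _ h1) (Nat.mul_le_mul_left _ h2)
    omega
  have hE : 2 * (a * b) * rsh w (pk w g (d + 2)) 1 + (H - 1) * ones w (d + 2) -
      (a * a * rsh w (pk w f (d + 2)) 2 + b * b * pk w h (d + 2)) =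
      pk w (fun i => 2 * (a * b) * (if i < d + 1 then g (1 + i) else 0) + (H - 1) -
        (a * a * (if i < d then f (2 + i) else 0) + b * b * h i)) (d + 2) := by
    rw [hA, hC, pk_sub]
    intro i hi
    have := hle i hi
    omega
  have hc' : (2 * (a * b) * rsh w (pk w g (d + 2)) 1 + (H - 1) * ones w (d + 2) -
      (a * a * rsh w (pk w f (d + 2)) 2 + b * b * pk w h (d + 2))) &&& (H * ones w d) =
      H * ones w d := hc
  rw [hE, ones_eq hw, pk_mul] at hc'
  have h1 := congrArg (fun t => Nat.testBit t (w * i + (w - 1))) hc'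
  simp only [Nat.testBit_and] at h1
  have hlt : ∀ i < d + 2, 2 * (a * b) * (if i < d + 1 then g (1 + i) else 0) + (H - 1) -
        (a * a * (if i < d then f (2 + i) else 0) + b * b * h i) < 2 ^ w := by
    intro i hi
    have h2 : (if i < d + 1 then g (1 + i) else 0) ≤ U := by
      split_ifs with h
      · exact (hg _ (by omega)).le
      · exact Nat.zero_le _
    have h3 : 2 * (a * b) * (if i < d + 1 then g (1 + i) else 0) ≤ 2 * (a * b) * U :=
      Nat.mul_le_mul_left _ h2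
    omega
  rw [pk_testBit (L := d + 2) hlt (by omega) (by omega),
    pk_testBit (L := d) (fun i _ => by rw [mul_one, h2H]; omega) hi (by omega),
    mul_one, hH, Nat.testBit_two_pow_self, Bool.and_true] at h1
  have h4 := Nat.ge_two_pow_of_testBit h1
  rw [← hH] at h4
  rw [if_pos (by omega), if_pos hi, add_comm 1 i, add_comm 2 i] at h4
  omega

/-- from the linear to the quadratic inequality -/
theorem lin_quad {a b x y z : ℕ} (h : a * a * x + b * b * z < 2 * (a * b) * y) : x * z < y ^ 2 := by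
  by_contra hc
  push Not at hc
  have h1 : (a * a * x + b * b * z) ^ 2 < (2 * (a * b) * y) ^ 2 := Nat.pow_lt_pow_left h (by norm_num)
  have h2 : (2 * (a * b) * y) ^ 2 = 4 * (a * b) ^ 2 * y ^ 2 := by ring
  have h3 : 4 * (a * b) ^ 2 * y ^ 2 ≤ 4 * (a * b) ^ 2 * (x * z) := Nat.mul_le_mul_left _ hc
  have h4 : 4 * (a * b) ^ 2 * (x * z) ≤ (a * a * x + b * b * z) ^ 2 := by
    zify
    nlinarith [sq_nonneg ((a : ℤ) * a * x - b * b * z)]
  omega

end Pool.Agent.Helper79_UR
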