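import Mathlib

/-!
# FIN (MP_c97607_co): values of integer power series at `B`, modulo `B ^ ℓ`
-/

namespace Pool.Agent.Helper79_UR

open PowerSeries

/-- `Z` is the value at `B` of an integer polynomial which agrees with `f` to the order `ℓ`. -/
def Rep (B : ℤ) (ℓ : ℕ) (f : ℤ⟦X⟧) (Z : ℤ) : Prop :=
  ∃ r : Polynomial ℤ, r.eval B = Z ∧ (X : ℤ⟦X⟧) ^ ℓ ∣ f - (r : ℤ⟦X⟧)

variable {B : ℤ} {ℓ : ℕ} {f g : ℤ⟦X⟧} {Y Z : ℤ}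

theorem Rep.add (h : Rep B ℓ f Y) (h' : Rep B ℓ g Z) : Rep B ℓ (f + g) (Y + Z) := by
  obtain ⟨r, hr, hf⟩ := h
  obtain ⟨s, hs, hg⟩ := h'
  refine ⟨r + s, by simp [hr, hs], ?_⟩
  have := dvd_add hf hg
  rw [Polynomial.coe_add]
  rwa [show f + g - ((r : ℤ⟦X⟧) + (s : ℤ⟦X⟧)) = f - r + (g - s) by ring]

theorem Rep.sub (h : Rep B ℓ f Y) (h' : Rep B ℓ g Z) : Rep B ℓ (f - g) (Y - Z) := by
  obtain ⟨r, hr, hf⟩ := h
  obtain ⟨s, hs, hg⟩ := h'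
  refine ⟨r - s, by simp [hr, hs], ?_⟩
  have := dvd_sub hf hg
  rw [Polynomial.coe_sub]
  rwa [show f - g - ((r : ℤ⟦X⟧) - (s : ℤ⟦X⟧)) = f - r - (g - s) by ring]

theorem Rep.mul (h : Rep B ℓ f Y) (h' : Rep B ℓ g Z) : Rep B ℓ (f * g) (Y * Z) := by
  obtain ⟨r, hr, hf⟩ := h
  obtain ⟨s, hs, hg⟩ := h'
  refine ⟨r * s, by simp [hr, hs], ?_⟩
  have := dvd_add (hf.mul_right g) (hg.mul_left (r : ℤ⟦X⟧))
  rw [Polynomial.coe_mul]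
  rwa [show f * g - ((r : ℤ⟦X⟧) * (s : ℤ⟦X⟧)) = (f - r) * g + r * (g - s) by ring]

theorem Rep.shift (s : ℕ) (h : Rep B ℓ f Z) : Rep B (ℓ + s) (X ^ s * f) (Z * B ^ s) := by
  obtain ⟨r, hr, hf⟩ := h
  refine ⟨r * Polynomial.X ^ s, by simp [hr], ?_⟩
  rw [Polynomial.coe_mul, Polynomial.coe_pow, Polynomial.coe_X, pow_add,
    show X ^ s * f - (r : ℤ⟦X⟧) * X ^ s = (f - (r : ℤ⟦X⟧)) * X ^ s by ring]
  exact mul_dvd_mul_right hf _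

theorem Rep.mono {ℓ' : ℕ} (h : Rep B ℓ f Z) (hl : ℓ' ≤ ℓ) : Rep B ℓ' f Z := by
  obtain ⟨r, hr, hf⟩ := h
  exact ⟨r, hr, (pow_dvd_pow _ hl).trans hf⟩

theorem Rep.modEq (h : Rep B ℓ f Y) (h' : Y ≡ Z [ZMOD B ^ ℓ]) : Rep B ℓ f Z := by
  obtain ⟨r, hr, hf⟩ := h
  obtain ⟨c, hc⟩ := h'.dvd
  refine ⟨r + Polynomial.X ^ ℓ * Polynomial.C c, by simp [hr, ← hc], ?_⟩
  rw [Polynomial.coe_add, Polynomial.coe_mul, Polynomial.coe_pow, Polynomial.coe_X, ← sub_sub]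
  exact dvd_sub hf (dvd_mul_right _ _)

theorem Rep.zero (B : ℤ) (f : ℤ⟦X⟧) (Z : ℤ) : Rep B 0 f Z :=
  ⟨Polynomial.C Z, by simp, by simp⟩

theorem Rep.one (B : ℤ) (ℓ : ℕ) : Rep B ℓ 1 1 := ⟨1, by simp, by simp⟩

theorem Rep.congr (h : Rep B ℓ f Z) (h' : (X : ℤ⟦X⟧) ^ ℓ ∣ g - f) : Rep B ℓ g Z := by
  obtain ⟨r, hr, hf⟩ := h
  refine ⟨r, hr, ?_⟩
  have := dvd_add h' hf
  rwa [show g - f + (f - (r : ℤ⟦X⟧)) = g - r by ring] at this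

theorem Rep.unique (h : Rep B ℓ f Y) (h' : Rep B ℓ f Z) : Y ≡ Z [ZMOD B ^ ℓ] := by
  obtain ⟨r, hr, hf⟩ := h
  obtain ⟨s, hs, hg⟩ := h'
  have h1 : (X : ℤ⟦X⟧) ^ ℓ ∣ ((s - r : Polynomial ℤ) : ℤ⟦X⟧) := by
    have := dvd_sub hf hg
    rw [Polynomial.coe_sub]
    rwa [show f - (r : ℤ⟦X⟧) - (f - (s : ℤ⟦X⟧)) = s - r by ring] at this
  have h2 : (Polynomial.X : Polynomial ℤ) ^ ℓ ∣ s - r := by
    rw [Polynomial.X_pow_dvd_iff]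
    intro d hd
    rw [X_pow_dvd_iff] at h1
    simpa using h1 d hd
  obtain ⟨c, hc⟩ := h2
  have h3 : s.eval B - r.eval B = B ^ ℓ * c.eval B := by
    rw [← Polynomial.eval_sub, hc]; simp
  rw [Int.modEq_iff_dvd, ← hr, ← hs, h3]
  exact dvd_mul_right _ _

theorem Rep.digits (B : ℤ) (ℓ : ℕ) (f : ℤ⟦X⟧) :
    Rep B ℓ f (∑ n ∈ Finset.range ℓ, coeff n f * B ^ n) := by
  refine ⟨∑ n ∈ Finset.range ℓ, Polynomial.C (coeff n f) * Polynomial.X ^ n, ?_, ?_⟩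
  · rw [Polynomial.eval_finsetSum]
    simp
  · rw [X_pow_dvd_iff]
    intro m hm
    rw [map_sub, Polynomial.coeff_coe, Polynomial.finsetSum_coeff]
    simp only [Polynomial.coeff_C_mul, Polynomial.coeff_X_pow]
    simp [hm]

/-- uniqueness of inverses -/
theorem Rep.inv {F : ℤ} (hF : Rep B ℓ f F) (hfg : f * g = 1) (hZ : F * Z ≡ 1 [ZMOD B ^ ℓ]) :
    Rep B ℓ g Z := by
  have h1 := Rep.digits B ℓ g
  set W := ∑ n ∈ Finset.range ℓ, coeff n g * B ^ n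
  have h2 := hF.mul h1
  rw [hfg] at h2
  have h3 : F * W ≡ 1 [ZMOD B ^ ℓ] := h2.unique (Rep.one B ℓ)
  refine h1.modEq ?_
  calc W ≡ W * 1 [ZMOD B ^ ℓ] := by rw [mul_one]
    _ ≡ W * (F * Z) [ZMOD B ^ ℓ] := (hZ.symm).mul_left W
    _ ≡ (F * W) * Z [ZMOD B ^ ℓ] := by rw [show W * (F * Z) = (F * W) * Z by ring]
    _ ≡ 1 * Z [ZMOD B ^ ℓ] := h3.mul_right Z
    _ ≡ Z [ZMOD B ^ ℓ] := by rw [one_mul]

theorem Rep.sum {ι : Type*} (s : Finset ι) (F : ι → ℤ⟦X⟧) (W : ι → ℤ)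
    (h : ∀ i ∈ s, Rep B ℓ (F i) (W i)) : Rep B ℓ (∑ i ∈ s, F i) (∑ i ∈ s, W i) := by
  classical
  induction s using Finset.induction_on with
  | empty => exact ⟨0, by simp, by simp⟩
  | insert a s ha ih =>
    rw [Finset.sum_insert ha, Finset.sum_insert ha]
    exact (h a (Finset.mem_insert_self _ _)).add
      (ih fun i hi => h i (Finset.mem_insert_of_mem hi))

end Pool.Agent.Helper79_UR
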