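import Pool.Agent.Helper21_UR.Stmts
import Pool.Agent.Helper79_UR.Rep
import Pool.Agent.Helper79_UR.Calc

/-!
# FIN (MP_c97607_co): the series behind the rank of unimodal sequences
-/

namespace Pool.Agent.Helper79_UR

open PowerSeries Pool.Agent.Helper21_UR

/-! ## Pairs of partitions -/

theorem coeff_mul_one_sub (f : ℤ⟦X⟧) (d n : ℕ) :
    coeff n (f * (1 - X ^ d)) = coeff n f - if d ≤ n then coeff (n - d) f else 0 := by
  rw [mul_sub, mul_one, map_sub, coeff_mul_X_pow']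

theorem mk_step1 (d : ℕ) (hd : 0 < d) (b : ℕ → ℤ) :
    (mk fun n => ∑ i ∈ Finset.range (n / d + 1), b (n - d * i)) * (1 - X ^ d) = mk b := by
  ext n
  rw [coeff_mul_one_sub]
  simp only [coeff_mk]
  split_ifs with h
  · obtain ⟨n', rfl⟩ := Nat.exists_eq_add_of_le h
    have h1 : (d + n') / d = n' / d + 1 := by
      rw [Nat.add_div_left _ hd]
    rw [h1, Finset.sum_range_succ', Nat.add_sub_cancel_left]
    have h2 : ∀ i, d + n' - d * (i + 1) = n' - d * i := fun i => by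
      rw [mul_add, mul_one]; omega
    simp only [h2, mul_zero, Nat.sub_zero]
    ring
  · rw [Nat.div_eq_of_lt (by omega)]
    simp

theorem mk_step2 (d : ℕ) (hd : 0 < d) (b : ℕ → ℤ) :
    (mk fun n => ∑ i ∈ Finset.range (n / d + 1), ((i : ℤ) + 1) * b (n - d * i)) * (1 - X ^ d) =
      mk fun n => ∑ i ∈ Finset.range (n / d + 1), b (n - d * i) := by
  ext n
  rw [coeff_mul_one_sub]
  simp only [coeff_mk]
  split_ifs with h
  · obtain ⟨n', rfl⟩ := Nat.exists_eq_add_of_le h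
    have h1 : (d + n') / d = n' / d + 1 := by
      rw [Nat.add_div_left _ hd]
    have h2 : ∀ i, d + n' - d * (i + 1) = n' - d * i := fun i => by
      rw [mul_add, mul_one]; omega
    rw [h1, Finset.sum_range_succ', Nat.add_sub_cancel_left,
      Finset.sum_range_succ' (fun i => b (d + n' - d * i))]
    simp only [h2, mul_zero, Nat.sub_zero, Nat.cast_add, Nat.cast_one, Nat.cast_zero, zero_add,
      one_mul]
    have h3 : ∀ i : ℕ, ((i : ℤ) + 1 + 1) * b (n' - d * i) =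
        ((i : ℤ) + 1) * b (n' - d * i) + b (n' - d * i) := fun i => by ring
    simp only [h3, Finset.sum_add_distrib]
    ring
  · rw [Nat.div_eq_of_lt (by omega)]
    simp

/-- the series of `bp J` -/
noncomputable def PB (J : ℕ) : ℤ⟦X⟧ := mk fun n => (bp J n : ℤ)

theorem PB_zero : PB 0 = 1 := by
  ext n
  rw [PB, coeff_mk, coeff_one]
  simp [bp]

theorem PB_succ (J : ℕ) : PB (J + 1) * (1 - X ^ (J + 1)) ^ 2 = PB J := by
  have h : PB (J + 1) = mk fun n => ∑ i ∈ Finset.range (n / (J + 1) + 1),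
      ((i : ℤ) + 1) * ((bp J (n - (J + 1) * i) : ℕ) : ℤ) := by
    ext n
    simp [PB, bp]
  rw [h, sq, ← mul_assoc, mk_step2 (J + 1) (Nat.succ_pos J) (fun n => ((bp J n : ℕ) : ℤ)),
    mk_step1 (J + 1) (Nat.succ_pos J) (fun n => ((bp J n : ℕ) : ℤ)), PB]

theorem PB_prod (J : ℕ) : PB J * (∏ j ∈ Finset.range J, (1 - X ^ (j + 1) : ℤ⟦X⟧)) ^ 2 = 1 := by
  induction J with
  | zero => simp [PB_zero]
  | succ J ih =>
    rw [Finset.prod_range_succ, mul_pow, mul_comm (_ ^ 2) (_ ^ 2), ← mul_assoc, PB_succ, ih]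

theorem bp_stable {J n : ℕ} (h : n ≤ J) : bp J n = bp n n := by
  induction J, h using Nat.le_induction with
  | base => rfl
  | succ J hJ ih =>
    rw [← ih, bp, Nat.div_eq_of_lt (by omega)]
    simp

/-- the series of pairs of partitions -/
noncomputable def P2s : ℤ⟦X⟧ := mk fun n => (bp n n : ℤ)

theorem P2s_mul : P2s * (pentagonalSeries ℤ) ^ 2 = 1 := by
  ext n
  have h1 : ∀ᶠ J : ℕ in Filter.atTop, ∀ i ∈ Finset.range (n + 1),
      (∏ j ∈ Finset.range J, (1 - X ^ (j + 1) : ℤ⟦X⟧)).coeff i = (pentagonalSeries ℤ).coeff i := by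
    rw [Filter.eventually_all_finset]
    intro i _
    exact Filter.tendsto_finset_range.eventually (coeff_prod_one_sub_X_pow_eventually_eq ℤ i)
  obtain ⟨J, hJ, hJn⟩ := (h1.and (Filter.eventually_ge_atTop n)).exists
  have h2 : (X : ℤ⟦X⟧) ^ (n + 1) ∣ P2s - PB J := by
    rw [X_pow_dvd_iff]
    intro i hi
    rw [map_sub, P2s, PB, coeff_mk, coeff_mk, bp_stable (n := i) (J := J) (by omega), sub_self]
  have h3 : (X : ℤ⟦X⟧) ^ (n + 1) ∣ pentagonalSeries ℤ -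
      ∏ j ∈ Finset.range J, (1 - X ^ (j + 1) : ℤ⟦X⟧) := by
    rw [X_pow_dvd_iff]
    intro i hi
    rw [map_sub, hJ i (Finset.mem_range.2 hi), sub_self]
  have h4 : (X : ℤ⟦X⟧) ^ (n + 1) ∣ P2s * (pentagonalSeries ℤ) ^ 2 - 1 := by
    rw [← PB_prod J]
    have := dvd_add (h2.mul_right ((pentagonalSeries ℤ) ^ 2))
      ((h3.mul_right (pentagonalSeries ℤ + ∏ j ∈ Finset.range J, (1 - X ^ (j + 1) : ℤ⟦X⟧))).mul_left
        (PB J))
    convert this using 1
    ring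
  rw [X_pow_dvd_iff] at h4
  have h5 := h4 n (by omega)
  rw [map_sub, sub_eq_zero] at h5
  exact h5

/-! ## The pentagonal series -/

theorem pent_aK (k : ℕ) : pentagonal (-(k : ℤ)) = aK k := by
  rw [pentagonal_neg]
  show _ = k * (3 * k + 1) / 2
  have : (k : ℤ) * (3 * k + 1) / 2 = ((k * (3 * k + 1) / 2 : ℕ) : ℤ) := by push_cast; rfl
  rw [this, Int.toNat_natCast]

theorem pent_bK (k : ℕ) : pentagonal ((k : ℤ) + 1) = bK k := by
  rw [pentagonal_def]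
  show _ = (k + 1) * (3 * k + 2) / 2
  have : ((k : ℤ) + 1) * (3 * (k + 1) - 1) / 2 = (((k + 1) * (3 * k + 2) / 2 : ℕ) : ℤ) := by
    push_cast
    congr 2
    ring
  rw [this, Int.toNat_natCast]

theorem aK_mono {j k : ℕ} (h : j ≤ k) : aK j ≤ aK k := by
  show j * (3 * j + 1) / 2 ≤ k * (3 * k + 1) / 2
  exact Nat.div_le_div_right (Nat.mul_le_mul h (by omega))

theorem aK_le_bK (k : ℕ) : aK k ≤ bK k := by
  show k * (3 * k + 1) / 2 ≤ (k + 1) * (3 * k + 2) / 2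
  exact Nat.div_le_div_right (Nat.mul_le_mul (by omega) (by omega))

theorem pent_trunc (n : ℕ) : (X : ℤ⟦X⟧) ^ (aK n) ∣ pentagonalSeries ℤ -
    ∑ k ∈ Finset.range n, (-1) ^ k * (X ^ aK k - X ^ bK k) := by
  rw [X_pow_dvd_iff]
  intro N hN
  let : TopologicalSpace ℤ := ⊥
  have : DiscreteTopology ℤ := ⟨rfl⟩
  let : TopologicalSpace ℤ⟦X⟧ := WithPiTopology.instTopologicalSpace ℤ
  have h := WithPiTopology.hasSum_pow_pentagonal_sub_pentagonalSeries ℤ
  have h1 := h.map (coeff N : ℤ⟦X⟧ →ₗ[ℤ] ℤ).toAddMonoidHom (WithPiTopology.continuous_coeff ℤ N)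
  have h2 : ∀ k ∉ Finset.range n, ((⇑(coeff N : ℤ⟦X⟧ →ₗ[ℤ] ℤ).toAddMonoidHom) ∘ fun k : ℕ =>
      (-1 : ℤ⟦X⟧) ^ k * (X ^ pentagonal (-(k : ℤ)) - X ^ pentagonal ((k : ℤ) + 1))) k = 0 := by
    intro k hk
    rw [Finset.mem_range, not_lt] at hk
    show coeff N ((-1 : ℤ⟦X⟧) ^ k * (X ^ pentagonal (-(k : ℤ)) - X ^ pentagonal ((k : ℤ) + 1))) = 0
    rw [pent_aK, pent_bK]
    have h3 : aK n ≤ aK k := aK_mono hk
    have h4 := aK_le_bK k
    have h5 : (X : ℤ⟦X⟧) ^ (aK n) ∣ (-1 : ℤ⟦X⟧) ^ k * (X ^ aK k - X ^ bK k) :=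
      dvd_mul_of_dvd_right (dvd_sub (pow_dvd_pow _ h3) (pow_dvd_pow _ (h3.trans h4))) _
    rw [X_pow_dvd_iff] at h5
    exact h5 N hN
  have h6 := (hasSum_sum_of_ne_finset_zero h2).unique h1
  rw [map_sub, sub_eq_zero, map_sum]
  refine Eq.trans h6.symm (Finset.sum_congr rfl fun k _ => ?_)
  show coeff N ((-1 : ℤ⟦X⟧) ^ k * (X ^ pentagonal (-(k : ℤ)) - X ^ pentagonal ((k : ℤ) + 1))) = _
  rw [pent_aK, pent_bK]

/-! ## Partial theta polynomials and rows -/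

noncomputable def ptP (κ J : ℕ) : ℤ⟦X⟧ :=
  ∑ j ∈ Finset.range J, (-1) ^ j * X ^ (j * (j + 1) / 2 + 2 * j * κ)

theorem ptP_succ (κ J : ℕ) :
    ptP κ (J + 2) = 1 - X ^ (2 * κ + 1) + X ^ (4 * κ + 3) * ptP (κ + 1) J := by
  unfold ptP
  rw [Finset.sum_range_succ', Finset.sum_range_succ', Finset.mul_sum]
  have h : ∀ j : ℕ, (-1 : ℤ⟦X⟧) ^ (j + 1 + 1) *
      X ^ ((j + 1 + 1) * (j + 1 + 1 + 1) / 2 + 2 * (j + 1 + 1) * κ) =
      X ^ (4 * κ + 3) * ((-1) ^ j * X ^ (j * (j + 1) / 2 + 2 * j * (κ + 1))) := by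
    intro j
    have h1 : (j + 1 + 1) * (j + 1 + 1 + 1) / 2 = j * (j + 1) / 2 + (2 * j + 3) := by
      rw [show (j + 1 + 1) * (j + 1 + 1 + 1) = j * (j + 1) + 2 * (2 * j + 3) by ring,
        Nat.add_mul_div_left _ _ (by norm_num)]
    rw [h1, pow_succ, pow_succ, show j * (j + 1) / 2 + (2 * j + 3) + 2 * (j + 1 + 1) * κ =
      (4 * κ + 3) + (j * (j + 1) / 2 + 2 * j * (κ + 1)) by ring, pow_add X (4 * κ + 3)]
    ring
  simp only [h]
  norm_num
  ring

noncomputable def TS (m κ J n : ℕ) : ℤ⟦X⟧ :=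
  ∑ i ∈ Finset.range n, (-1) ^ i * (X ^ (i * m + i * κ + i * (i + 1) / 2) *
    ((1 - X ^ (κ + i)) * P2s * ptP (κ + i) J))

theorem TS_succ (m κ J n : ℕ) : TS m κ J (n + 1) =
    (1 - X ^ κ) * P2s * ptP κ J - X ^ (m + κ + 1) * TS m (κ + 1) J n := by
  unfold TS
  rw [Finset.sum_range_succ', Finset.mul_sum]
  have h : ∀ i : ℕ, (-1 : ℤ⟦X⟧) ^ (i + 1) * (X ^ ((i + 1) * m + (i + 1) * κ +
      (i + 1) * (i + 1 + 1) / 2) * ((1 - X ^ (κ + (i + 1))) * P2s * ptP (κ + (i + 1)) J)) =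
      -(X ^ (m + κ + 1) * ((-1) ^ i * (X ^ (i * m + i * (κ + 1) + i * (i + 1) / 2) *
        ((1 - X ^ (κ + 1 + i)) * P2s * ptP (κ + 1 + i) J)))) := by
    intro i
    have h1 : (i + 1) * (i + 1 + 1) / 2 = i * (i + 1) / 2 + (i + 1) := by
      rw [show (i + 1) * (i + 1 + 1) = i * (i + 1) + 2 * (i + 1) by ring,
        Nat.add_mul_div_left _ _ (by norm_num)]
    rw [h1, show (i + 1) * m + (i + 1) * κ + (i * (i + 1) / 2 + (i + 1)) =
      (m + κ + 1) + (i * m + i * (κ + 1) + i * (i + 1) / 2) by ring, pow_add X (m + κ + 1),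
      show κ + (i + 1) = κ + 1 + i by ring, pow_succ (-1 : ℤ⟦X⟧)]
    ring
  simp only [h, Finset.sum_neg_distrib]
  simp
  ring

/-- the exponents of the double sum -/
def EE2 (m k j : ℕ) : ℕ := (k + 1) * (m + 1) + k * (k + 1) / 2 + j * (j + 1) / 2 + 2 * j * (k + 1)

theorem TS_one (m J n : ℕ) : X ^ (m + 1) * TS m 1 J n = ∑ k ∈ Finset.range n,
    ∑ j ∈ Finset.range J, (-1) ^ (k + j) * (X ^ EE2 m k j * ((1 - X ^ (k + 1)) * P2s)) := by
  unfold TS ptP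
  rw [Finset.mul_sum]
  refine Finset.sum_congr rfl fun k _ => ?_
  rw [Finset.mul_sum, Finset.mul_sum, Finset.mul_sum, Finset.mul_sum]
  refine Finset.sum_congr rfl fun j _ => ?_
  have e : (X : ℤ⟦X⟧) ^ EE2 m k j = X ^ (m + 1) * X ^ (k * m + k * 1 + k * (k + 1) / 2) *
      X ^ (j * (j + 1) / 2 + 2 * j * (1 + k)) := by
    rw [← pow_add, ← pow_add, EE2]
    congr 1
    ring
  rw [e, pow_add (-1 : ℤ⟦X⟧) k j, add_comm k 1]
  ring

theorem coeff_term (E d M : ℕ) : coeff M (X ^ E * ((1 - X ^ d) * P2s)) =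
    (if E ≤ M then ((bp (M - E) (M - E) : ℕ) : ℤ) else 0) -
    (if E + d ≤ M then ((bp (M - (E + d)) (M - (E + d)) : ℕ) : ℤ) else 0) := by
  rw [show (X : ℤ⟦X⟧) ^ E * ((1 - X ^ d) * P2s) = X ^ E * P2s - X ^ (E + d) * P2s by
    rw [pow_add]; ring, map_sub, coeff_X_pow_mul', coeff_X_pow_mul', P2s]
  simp only [coeff_mk]

theorem u_eq (hC : CoefStatement) (hP : P2Statement) (m M J n : ℕ) (hM : 1 ≤ M)
    (hJ : M + 1 ≤ J) (hn : M + 1 ≤ n) :
    (u (m : ℤ) M : ℤ) = coeff M (X ^ (m + 1) * TS m 1 J n) := by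
  have h := hC (fun n => ((bp n n : ℕ) : ℤ)) (fun q hq => by simpa using hP q hq) m M hM
  rw [h, TS_one, map_sum]
  have hterm : ∀ k j : ℕ, coeff M ((-1 : ℤ⟦X⟧) ^ (k + j) *
      (X ^ EE2 m k j * ((1 - X ^ (k + 1)) * P2s))) = (-1) ^ (k + j) *
      ((if EE2 m k j ≤ M then ((bp (M - EE2 m k j) (M - EE2 m k j) : ℕ) : ℤ) else 0) -
      (if EE2 m k j + (k + 1) ≤ M then
        ((bp (M - (EE2 m k j + (k + 1))) (M - (EE2 m k j + (k + 1))) : ℕ) : ℤ) else 0)) := by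
    intro k j
    rw [← coeff_term]
    have : ((-1 : ℤ⟦X⟧)) ^ (k + j) = C ((-1 : ℤ) ^ (k + j)) := by simp
    rw [this, coeff_C_mul]
  have hzero : ∀ k j : ℕ, M < EE2 m k j → coeff M ((-1 : ℤ⟦X⟧) ^ (k + j) *
      (X ^ EE2 m k j * ((1 - X ^ (k + 1)) * P2s))) = 0 := by
    intro k j hE
    rw [hterm, if_neg (by omega), if_neg (by omega)]
    simp
  have hk : ∀ k j : ℕ, k < EE2 m k j := by
    intro k j
    have : k + 1 ≤ (k + 1) * (m + 1) := Nat.le_mul_of_pos_right _ (Nat.succ_pos m)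
    unfold EE2
    omega
  have hj : ∀ k j : ℕ, j ≤ EE2 m k j := by
    intro k j
    have h1 : 2 * j ≤ 2 * j * (k + 1) := Nat.le_mul_of_pos_right _ (Nat.succ_pos k)
    unfold EE2
    omega
  rw [Finset.sum_subset (Finset.range_mono hn) (s₂ := Finset.range n)]
  · refine Finset.sum_congr rfl fun k _ => ?_
    rw [map_sum, Finset.sum_subset (Finset.range_mono hJ) (s₂ := Finset.range J)]
    · refine Finset.sum_congr rfl fun j _ => ?_
      rw [hterm]
      rfl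
    · intro j _ hj'
      rw [Finset.mem_range, not_lt] at hj'
      have := hj k j
      rw [if_neg (by unfold EE2 at this; omega), if_neg (by unfold EE2 at this; omega)]
      simp
  · intro k _ hk'
    rw [Finset.mem_range, not_lt] at hk'
    refine Finset.sum_eq_zero fun j _ => ?_
    have := hk k j
    rw [if_neg (by unfold EE2 at this; omega), if_neg (by unfold EE2 at this; omega)]
    simp

/-- `V m` has the coefficients `u(m, m + 1 + i)`. -/
noncomputable def V (m : ℕ) : ℤ⟦X⟧ := mk fun i => (u (m : ℤ) (i + (m + 1)) : ℤ)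

theorem V_congr (hC : CoefStatement) (hP : P2Statement) {m L J n : ℕ} (hJ : L + m + 1 ≤ J)
    (hn : L + m + 1 ≤ n) : (X : ℤ⟦X⟧) ^ L ∣ V m - TS m 1 J n := by
  rw [X_pow_dvd_iff]
  intro i hi
  rw [map_sub, V, coeff_mk, u_eq hC hP m (i + (m + 1)) J n (by omega) (by omega) (by omega),
    add_comm i (m + 1), coeff_X_pow_mul', if_pos (by omega), Nat.add_sub_cancel_left, sub_self]

end Pool.Agent.Helper79_UR
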