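import Pool.Agent.Helper79_UR.Pack
import Pool.Agent.Helper79_UR.Series

/-!
# FIN (MP_c97607_co): soundness of the base computation
-/

namespace Pool.Agent.Helper79_UR

open PowerSeries Pool.Agent.Helper21_UR

theorem modEq_land (w n x : ℕ) : (x : ℤ) ≡ (Nat.land x (msk w n) : ℕ) [ZMOD (2 ^ w) ^ n] := by
  rw [land_msk]
  have h : ((2 : ℤ) ^ w) ^ n = ((2 ^ (w * n) : ℕ) : ℤ) := by push_cast; rw [pow_mul]
  rw [h, Int.natCast_mod]
  exact (Int.mod_modEq _ _).symm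

theorem modEq_sub_top {w n t x y : ℕ} (hy : y ≤ x + 2 ^ (w * t)) (ht : n ≤ t) :
    (x : ℤ) - y ≡ ((x + 2 ^ (w * t) - y : ℕ) : ℤ) [ZMOD (2 ^ w) ^ n] := by
  rw [Int.modEq_iff_dvd, Nat.cast_sub hy]
  push_cast
  rw [show (x : ℤ) + 2 ^ (w * t) - y - (x - y) = 2 ^ (w * t) by ring, ← pow_mul]
  exact pow_dvd_pow _ (Nat.mul_le_mul_left _ ht)

theorem Rep.X_pow (B : ℤ) (ℓ s : ℕ) : Rep B ℓ (X ^ s) (B ^ s) := by
  refine ⟨Polynomial.X ^ s, by simp, by simp⟩

theorem Rep.poly (B : ℤ) (ℓ : ℕ) (r : Polynomial ℤ) : Rep B ℓ (r : ℤ⟦X⟧) (r.eval B) :=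
  ⟨r, rfl, by simp⟩

/-! ## pentagonal numbers -/

theorem eP_eN (w n : ℕ) : (eP w n : ℤ) - eN w n =
    ∑ k ∈ Finset.range n, (-1) ^ k * (((2 : ℤ) ^ w) ^ aK k - (2 ^ w) ^ bK k) := by
  induction n with
  | zero => simp [eP, eN]
  | succ n ih =>
    rw [Finset.sum_range_succ, ← ih]
    show ((eP w n + 2 ^ (w * (cond (Nat.beq (n % 2) 0) (aK n) (bK n))) : ℕ) : ℤ) -
      ((eN w n + 2 ^ (w * (cond (Nat.beq (n % 2) 0) (bK n) (aK n))) : ℕ) : ℤ) = _
    rcases Nat.mod_two_eq_zero_or_one n with h | h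
    · rw [h]
      have h1 : (-1 : ℤ) ^ n = 1 := (Nat.even_iff.2 h).neg_one_pow
      rw [h1, show Nat.beq 0 0 = true from rfl]
      simp only [cond_true]
      push_cast
      rw [pow_mul, pow_mul]
      ring
    · rw [h]
      have h1 : (-1 : ℤ) ^ n = -1 := (Nat.odd_iff.2 h).neg_one_pow
      rw [h1, show Nat.beq 1 0 = false from rfl]
      simp only [cond_false]
      push_cast
      rw [pow_mul, pow_mul]
      ring

theorem rep_pent {w L np t : ℕ} (hL : L ≤ aK np) (ht : L ≤ t)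
    (hle : eN w np ≤ eP w np + 2 ^ (w * t)) :
    Rep (2 ^ w) L (pentagonalSeries ℤ) ((eP w np + 2 ^ (w * t) - eN w np : ℕ) : ℤ) := by
  have h1 := Rep.poly (2 ^ w) L (∑ k ∈ Finset.range np,
    (-1 : Polynomial ℤ) ^ k * (Polynomial.X ^ aK k - Polynomial.X ^ bK k))
  have h2 : Polynomial.eval ((2 : ℤ) ^ w) (∑ k ∈ Finset.range np,
      (-1 : Polynomial ℤ) ^ k * (Polynomial.X ^ aK k - Polynomial.X ^ bK k)) =
      (eP w np : ℤ) - eN w np := by
    rw [eP_eN, Polynomial.eval_finsetSum]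
    refine Finset.sum_congr rfl fun k _ => ?_
    simp
  rw [h2] at h1
  refine (h1.congr ?_).modEq (modEq_sub_top hle ht)
  refine (pow_dvd_pow _ hL).trans ?_
  have h3 : ((∑ k ∈ Finset.range np, (-1 : Polynomial ℤ) ^ k *
      (Polynomial.X ^ aK k - Polynomial.X ^ bK k) : Polynomial ℤ) : ℤ⟦X⟧) =
      ∑ k ∈ Finset.range np, (-1) ^ k * (X ^ aK k - X ^ bK k) := by
    rw [← Polynomial.coeToPowerSeries.ringHom_apply, map_sum]
    refine Finset.sum_congr rfl fun k _ => ?_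
    simp
  rw [h3]
  exact pent_trunc np

/-! ## bound for the pairs of partitions -/

theorem coeff_E_abs (n : ℕ) : |coeff n (pentagonalSeries ℤ)| ≤ 1 := by
  by_cases h : n ∈ Set.range pentagonal
  · obtain ⟨k, rfl⟩ := h
    rw [coeff_pentagonalSeries_pentagonal]
    rcases Int.units_eq_one_or k.negOnePow with h | h <;> simp [h]
  · rw [coeff_pentagonalSeries_eq_zero ℤ h]
    simp

theorem coeff_E_zero : coeff 0 (pentagonalSeries ℤ) = 1 := by
  have h := coeff_pentagonalSeries_pentagonal ℤ 0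
  have h0 : pentagonal 0 = 0 := by simp [pentagonal_def]
  rw [h0] at h
  simpa using h

theorem coeff_E2_abs (n : ℕ) : |coeff n ((pentagonalSeries ℤ) ^ 2)| ≤ (n : ℤ) + 1 := by
  rw [sq, coeff_mul]
  refine (Finset.abs_sum_le_sum_abs _ _).trans ?_
  have h : ∀ p ∈ Finset.HasAntidiagonal.antidiagonal n,
      |coeff p.1 (pentagonalSeries ℤ) * coeff p.2 (pentagonalSeries ℤ)| ≤ 1 := by
    intro p _
    rw [abs_mul]
    exact mul_le_one₀ (coeff_E_abs _) (abs_nonneg _) (coeff_E_abs _)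
  refine (Finset.sum_le_card_nsmul _ _ 1 h).trans ?_
  simp

theorem coeff_E2_zero : coeff 0 ((pentagonalSeries ℤ) ^ 2) = 1 := by
  rw [sq, coeff_mul]
  simp [coeff_E_zero]

theorem bp_rec_bound {n T : ℕ} (hT : 1 ≤ T) (h : ∀ j < n, bp j j < T) :
    bp n n ≤ (n + 1) ^ 2 * T := by
  rcases Nat.eq_zero_or_pos n with rfl | hn
  · simp [bp]; exact hT
  have h1 : coeff n (P2s * (pentagonalSeries ℤ) ^ 2) = 0 := by
    rw [P2s_mul, coeff_one, if_neg (by omega)]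
  rw [coeff_mul, Finset.Nat.sum_antidiagonal_eq_sum_range_succ_mk, Finset.sum_range_succ,
    Nat.sub_self, coeff_E2_zero, mul_one] at h1
  have h2 : coeff n P2s = ((bp n n : ℕ) : ℤ) := by simp [P2s]
  rw [h2] at h1
  have h3 : ((bp n n : ℕ) : ℤ) = -∑ k ∈ Finset.range n, coeff k P2s *
      coeff (n - k) ((pentagonalSeries ℤ) ^ 2) := by linarith
  have h4 : ((bp n n : ℕ) : ℤ) ≤ ∑ k ∈ Finset.range n, (T : ℤ) * (n + 1) := by
    rw [h3]
    refine (neg_le_abs _).trans ((Finset.abs_sum_le_sum_abs _ _).trans ?_)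
    refine Finset.sum_le_sum fun k hk => ?_
    rw [Finset.mem_range] at hk
    rw [abs_mul]
    refine mul_le_mul ?_ ?_ (abs_nonneg _) (by positivity)
    · rw [P2s, coeff_mk, Nat.abs_cast]
      exact_mod_cast (h k hk).le
    · refine (coeff_E2_abs _).trans ?_
      have : ((n - k : ℕ) : ℤ) ≤ n := by exact_mod_cast Nat.sub_le n k
      linarith
  rw [Finset.sum_const, Finset.card_range, nsmul_eq_mul] at h4
  have h5 : bp n n ≤ n * (T * (n + 1)) := by exact_mod_cast h4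
  refine h5.trans ?_
  nlinarith

theorem win_land {w S L Z n : ℕ} (hw : 0 < w) (hS : S ≤ w)
    (hZ : Nat.land Z (Nat.mul (Nat.sub (Nat.pow 2 S) 1) (ones w L)) = Z) (hn : n < L) :
    win w Z n 1 < 2 ^ S := by
  rw [win_eq, mul_one]
  refine Nat.lt_pow_two_of_testBit _ fun j hj => ?_
  rw [Nat.testBit_mod_two_pow, Nat.testBit_div_two_pow]
  by_cases hjw : j < w
  · have h1 : Z &&& ((2 ^ S - 1) * ones w L) = Z := hZ
    have hS2 : 2 ^ S ≤ 2 ^ w := Nat.pow_le_pow_right (by norm_num) hS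
    rw [← h1, Nat.testBit_and, ones_eq hw, pk_mul, add_comm j,
      pk_testBit (L := L) (fun i _ => by
        have : 0 < 2 ^ S := by positivity
        rw [mul_one]; omega) hn hjw, mul_one, Nat.testBit_two_pow_sub_one]
    simp
    omega
  · simp [hjw]

theorem pk_eq_of_rep {w L Z : ℕ} {f : ℤ⟦X⟧} {c : ℕ → ℕ} (h : Rep (2 ^ w) L f Z)
    (hc : ∀ i < L, coeff i f = c i) (hlt : ∀ i < L, c i < 2 ^ w) :
    Z % 2 ^ (w * L) = pk w c L := by
  have h1 := h.unique (Rep.digits (2 ^ w) L f)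
  have h2 : ∑ n ∈ Finset.range L, coeff n f * ((2 : ℤ) ^ w) ^ n = ((pk w c L : ℕ) : ℤ) := by
    unfold pk
    push_cast
    refine Finset.sum_congr rfl fun i hi => ?_
    rw [hc i (Finset.mem_range.1 hi), pow_mul]
  rw [h2] at h1
  have h3 : ((2 : ℤ) ^ w) ^ L = ((2 ^ (w * L) : ℕ) : ℤ) := by push_cast; rw [pow_mul]
  rw [h3, Int.natCast_modEq_iff] at h1
  rw [← Nat.mod_eq_of_lt (pk_lt hlt)]
  exact h1

theorem bp_bound {w S L Z : ℕ} (hw : 0 < w) (hS : S ≤ w) (hrep : Rep (2 ^ w) L P2s Z)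
    (hZ : Nat.land Z (Nat.mul (Nat.sub (Nat.pow 2 S) 1) (ones w L)) = Z)
    (hLS : (L + 1) ^ 2 * 2 ^ S ≤ 2 ^ w) : ∀ n < L, bp n n < 2 ^ S := by
  intro n
  induction n using Nat.strong_induction_on with
  | _ n ih =>
    intro hn
    have h1 : ∀ j < n, bp j j < 2 ^ S := fun j hj => ih j hj (by omega)
    have h2 := bp_rec_bound (n := n) (T := 2 ^ S) (Nat.one_le_two_pow) h1
    have h3 : bp n n < 2 ^ w := by
      refine lt_of_le_of_lt h2 (lt_of_lt_of_le ?_ hLS)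
      refine Nat.mul_lt_mul_of_pos_right ?_ (by positivity)
      exact Nat.pow_lt_pow_left (by omega) (by norm_num)
    have hS2 : 2 ^ S ≤ 2 ^ w := Nat.pow_le_pow_right (by norm_num) hS
    have h4 : Z % 2 ^ (w * (n + 1)) = pk w (fun i => bp i i) (n + 1) := by
      refine pk_eq_of_rep (hrep.mono (by omega)) (fun i _ => by simp [P2s]) fun i hi => ?_
      rcases Nat.lt_succ_iff_lt_or_eq.1 hi with h | rfl
      · exact (h1 i h).trans_le hS2
      · exact h3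
    have h5 := pk_win (w := w) (Z := Z) (f := fun i => bp i i) (L := n + 1) (c := n) (d := 1) h4
      (fun i hi => by
        rcases Nat.lt_succ_iff_lt_or_eq.1 hi with h | rfl
        · exact (h1 i h).trans_le hS2
        · exact h3) le_rfl
    have h6 := win_land hw hS hZ hn
    rw [h5] at h6
    simpa [pk] using h6

/-! ## the list -/

/-- `B_κ` -/
noncomputable def BS (κ J : ℕ) : ℤ⟦X⟧ := (1 - X ^ κ) * P2s * ptP κ J

def GI (w n κ G : ℕ) : Prop := ∃ J0, ∀ J ≥ J0, Rep (2 ^ w) n (P2s * ptP κ J) G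

def BI (w L m0 κ b : ℕ) : Prop := ∃ J0, ∀ J ≥ J0, Rep (2 ^ w) (ell L m0 κ) (BS κ J) b

def BLi (w L m0 : ℕ) : ℕ → List ℕ → Prop
  | κ, [] => ell L m0 κ = 0
  | κ, b :: bs => BI w L m0 κ b ∧ BLi w L m0 (κ + 1) bs

theorem ell_le (L m0 κ : ℕ) : ell L m0 κ ≤ L := Nat.sub_le _ _

theorem nmin_le_left (a b : ℕ) : nmin a b ≤ a := by
  unfold nmin
  cases h : Nat.ble a b
  · have : ¬ a ≤ b := fun h' => by
      rw [Nat.ble_eq_true_of_le h'] at h
      exact absurd h (by simp)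
    show b ≤ a
    omega
  · exact le_rfl

theorem nmin_le_right (a b : ℕ) : nmin a b ≤ b := by
  unfold nmin
  cases h : Nat.ble a b
  · exact le_rfl
  · exact Nat.le_of_ble_eq_true h

theorem gloop_sound {w L m0 Z K : ℕ} (hZ : Rep (2 ^ w) L P2s Z) (k : List ℕ → Bool) :
    ∀ (κ G n : ℕ) (bs : List ℕ),
    gloop w L m0 Z (Nat.add Z (Nat.pow 2 (Nat.mul w (L + 2 * K + 1))))
      (Nat.pow 2 (Nat.mul w (L + K))) κ G n bs k = true →
    GI w n (κ + 1) G → BLi w L m0 (κ + 1) bs → ∃ Bs, BLi w L m0 1 Bs ∧ k Bs = true := by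
  intro κ
  induction κ with
  | zero =>
    intro G n bs h _ hB
    exact ⟨bs, hB, h⟩
  | succ κ ih =>
    intro G n bs h hG hB
    simp only [gloop] at h
    rw [Bool.and_eq_true] at h
    obtain ⟨h1, h2⟩ := h
    set n' := nmin (n + (4 * (κ + 1) + 3)) (ell L 0 (κ + 1)) with hn'
    set G' := Nat.land (Nat.add (Nat.sub (Nat.add Z (Nat.pow 2 (Nat.mul w (L + 2 * K + 1))))
      (lsh w Z (2 * (κ + 1) + 1))) (lsh w G (4 * (κ + 1) + 3))) (msk w n') with hG'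
    have hn1 : n' ≤ n + (4 * (κ + 1) + 3) := nmin_le_left _ _
    have hn2 : n' ≤ L := (nmin_le_right _ _).trans (ell_le _ _ _)
    have h1' : lsh w Z (2 * (κ + 1) + 1) ≤ Z + 2 ^ (w * (L + 2 * K + 1)) :=
      Nat.le_of_ble_eq_true h1
    have hGI : GI w n' (κ + 1) G' := by
      obtain ⟨J0, hJ0⟩ := hG
      refine ⟨J0 + 2, fun J hJ => ?_⟩
      obtain ⟨J', rfl⟩ : ∃ J', J = J' + 2 := ⟨J - 2, by omega⟩
      rw [ptP_succ, show P2s * (1 - X ^ (2 * (κ + 1) + 1) + X ^ (4 * (κ + 1) + 3) *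
        ptP (κ + 1 + 1) J') = P2s - X ^ (2 * (κ + 1) + 1) * P2s +
          X ^ (4 * (κ + 1) + 3) * (P2s * ptP (κ + 1 + 1) J') by ring]
      have r1 := hZ.mono hn2
      have r2 := (hZ.shift (2 * (κ + 1) + 1)).mono (show n' ≤ L + (2 * (κ + 1) + 1) by omega)
      have r3 := ((hJ0 J' (by omega)).shift (4 * (κ + 1) + 3)).mono hn1
      refine ((r1.sub r2).add r3).modEq ?_
      refine Int.ModEq.trans ?_ (modEq_land w n' _)
      show (Z : ℤ) - Z * (2 ^ w) ^ (2 * (κ + 1) + 1) + G * (2 ^ w) ^ (4 * (κ + 1) + 3) ≡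
        (((Z + 2 ^ (w * (L + 2 * K + 1)) - lsh w Z (2 * (κ + 1) + 1)) +
          lsh w G (4 * (κ + 1) + 3) : ℕ) : ℤ) [ZMOD (2 ^ w) ^ n']
      rw [Nat.cast_add]
      refine Int.ModEq.add ?_ ?_
      · have := modEq_sub_top (w := w) (n := n') h1' (by omega)
        refine Int.ModEq.trans ?_ this
        rw [lsh_eq]
        push_cast
        rw [pow_mul]
      · rw [lsh_eq]
        push_cast
        rw [pow_mul]
    cases hc : Nat.beq (ell L m0 (κ + 1)) 0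
    · rw [hc] at h2
      simp only [cond_false] at h2
      rw [Bool.and_eq_true, Bool.and_eq_true] at h2
      obtain ⟨h3, h4, h5⟩ := h2
      have h3' : lsh w G' (κ + 1) ≤ G' + 2 ^ (w * (L + K)) := Nat.le_of_ble_eq_true h3
      have h4' : ell L m0 (κ + 1) ≤ n' := Nat.le_of_ble_eq_true h4
      refine ih G' n' _ h5 hGI ⟨?_, hB⟩
      obtain ⟨J0, hJ0⟩ := hGI
      refine ⟨J0, fun J hJ => ?_⟩
      rw [BS, show (1 - X ^ (κ + 1)) * P2s * ptP (κ + 1) J = P2s * ptP (κ + 1) J -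
        X ^ (κ + 1) * (P2s * ptP (κ + 1) J) by ring]
      have r1 := (hJ0 J hJ).mono h4'
      have r2 := ((hJ0 J hJ).shift (κ + 1)).mono
        (show ell L m0 (κ + 1) ≤ n' + (κ + 1) by omega)
      refine (r1.sub r2).modEq ?_
      refine Int.ModEq.trans ?_ (modEq_land w _ _)
      have := modEq_sub_top (w := w) (n := ell L m0 (κ + 1)) h3'
        ((ell_le _ _ _).trans (Nat.le_add_right _ _))
      refine Int.ModEq.trans ?_ this
      rw [lsh_eq]
      push_cast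
      rw [pow_mul]
    · rw [hc] at h2
      simp only [cond_true] at h2
      exact ih G' n' [] h2 hGI (Nat.eq_of_beq_eq_true hc)

theorem base_sound {w L S K np m0 TL : ℕ} {ps : List ℕ} {k : List ℕ → Bool}
    (hp : okpar w L S TL = true) (h : base w L S K np m0 ps k = true) :
    (∀ n < L, bp n n < 2 ^ S) ∧ ∃ Bs, BLi w L m0 1 Bs ∧ k Bs = true := by
  simp only [okpar, Bool.and_eq_true] at hp
  obtain ⟨p1, p2, p3, p4, p5⟩ := hp
  have hw : 0 < w := Nat.le_of_ble_eq_true p1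
  have hS : S ≤ w := Nat.le_of_ble_eq_true p2
  have hL : 1 ≤ L := Nat.le_of_ble_eq_true p3
  have hLS : (L + 1) ^ 2 * 2 ^ S ≤ 2 ^ w := Nat.le_of_ble_eq_true p5
  simp only [base, Bool.and_eq_true] at h
  obtain ⟨h1, h2, h3, h4, h5, h6⟩ := h
  have h1' : eN w np ≤ eP w np + 2 ^ (w * (L + 2 * np)) := Nat.le_of_ble_eq_true h1
  have h2' : L ≤ aK np := Nat.le_of_ble_eq_true h2
  have h3' : ell L m0 (K + 1) = 0 := Nat.eq_of_beq_eq_true h3
  have hE := rep_pent h2' (show L ≤ L + 2 * np by omega) h1'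
  set EN := eP w np + 2 ^ (w * (L + 2 * np)) - eN w np with hEN
  have hD : Rep (2 ^ w) L ((pentagonalSeries ℤ) ^ 2) ((Nat.land (Nat.mul EN EN) (msk w L) : ℕ) : ℤ) := by
    rw [sq]
    refine (hE.mul hE).modEq (Int.ModEq.trans ?_ (modEq_land w L _))
    show (EN : ℤ) * EN ≡ ((EN * EN : ℕ) : ℤ) [ZMOD (2 ^ w) ^ L]
    push_cast
    rfl
  set D := Nat.land (Nat.mul EN EN) (msk w L) with hDdef
  set Z := nw w D ps 1 with hZdef
  have h4' : Nat.land (Nat.mul D Z) (msk w L) = 1 := Nat.eq_of_beq_eq_true h4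
  have h5' : Nat.land Z (Nat.mul (Nat.sub (Nat.pow 2 S) 1) (ones w L)) = Z :=
    Nat.eq_of_beq_eq_true h5
  have hZ : Rep (2 ^ w) L P2s Z := by
    refine hD.inv (by rw [mul_comm]; exact P2s_mul) ?_
    have := modEq_land w L (Nat.mul D Z)
    rw [h4'] at this
    refine Int.ModEq.trans ?_ this
    show (D : ℤ) * Z ≡ ((D * Z : ℕ) : ℤ) [ZMOD (2 ^ w) ^ L]
    push_cast
    rfl
  refine ⟨bp_bound hw hS hZ h5' hLS, ?_⟩
  exact gloop_sound hZ k K 0 0 [] h6 ⟨0, fun J _ => Rep.zero _ _ _⟩ h3'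

/-! ## rows -/

theorem ell_succ {L m κ : ℕ} (hκ : 1 ≤ κ) : ell L m κ ≤ ell L m (κ + 1) + (m + κ + 1) := by
  show L - ((κ - 1) * m + (κ - 1) * (κ + 2) / 2) ≤
    L - ((κ + 1 - 1) * m + (κ + 1 - 1) * (κ + 1 + 2) / 2) + (m + κ + 1)
  obtain ⟨j, rfl⟩ : ∃ j, κ = j + 1 := ⟨κ - 1, by omega⟩
  rw [Nat.add_sub_cancel, Nat.add_sub_cancel]
  have h1 : (j + 1) * (j + 1 + 1 + 2) / 2 = j * (j + 1 + 2) / 2 + (j + 2) := by
    rw [show (j + 1) * (j + 1 + 1 + 2) = j * (j + 1 + 2) + 2 * (j + 2) by ring,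
      Nat.add_mul_div_left _ _ (by norm_num)]
  rw [h1, show (j + 1) * m = j * m + m by ring]
  omega

theorem ell_mono {L m m0 κ : ℕ} (h : m0 ≤ m) : ell L m κ ≤ ell L m0 κ := by
  show L - ((κ - 1) * m + (κ - 1) * (κ + 2) / 2) ≤ L - ((κ - 1) * m0 + (κ - 1) * (κ + 2) / 2)
  have : (κ - 1) * m0 ≤ (κ - 1) * m := Nat.mul_le_mul_left _ h
  omega

theorem ell_one (L m : ℕ) : ell L m 1 = L := by
  show L - ((1 - 1) * m + (1 - 1) * (1 + 2) / 2) = L
  simp

theorem hor_cons (w m κ b : ℕ) (bs : List ℕ) :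
    hor w m κ (b :: bs) = b + hor w m (κ + 2) bs.tail * 2 ^ (w * (2 * m + 2 * κ + 3)) := by
  cases bs with
  | nil => simp [hor]
  | cons b' bs =>
    show b + lsh w (hor w m (κ + 2) bs) (2 * m + 2 * κ + 3) = _
    rw [lsh_eq]
    rfl

theorem hor_rep {w L m0 m : ℕ} (hm : m0 ≤ m) : ∀ (bs : List ℕ) (κ : ℕ), 1 ≤ κ →
    BLi w L m0 κ bs → ∃ M0, ∀ J ≥ M0, ∀ n ≥ M0, Rep (2 ^ w) (ell L m κ) (TS m κ J n)
      ((hor w m κ bs : ℤ) - (2 ^ w) ^ (m + κ + 1) * hor w m (κ + 1) bs.tail) := by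
  intro bs
  induction bs with
  | nil =>
    intro κ _ h
    refine ⟨0, fun J _ n _ => ?_⟩
    have h1 : ell L m0 κ = 0 := h
    have h2 : ell L m κ = 0 := by
      have := ell_mono (L := L) (κ := κ) hm
      omega
    rw [h2]
    exact Rep.zero _ _ _
  | cons b bs ih =>
    intro κ hκ h
    obtain ⟨⟨J0, hJ0⟩, h2⟩ := h
    obtain ⟨M0, hM0⟩ := ih (κ + 1) (by omega) h2
    refine ⟨max J0 (M0 + 1), fun J hJ n hn => ?_⟩
    have hn1 : M0 + 1 ≤ n := (le_max_right _ _).trans hn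
    obtain ⟨n', rfl⟩ : ∃ n', n = n' + 1 := ⟨n - 1, by omega⟩
    rw [TS_succ]
    have r1 := (hJ0 J ((le_max_left _ _).trans hJ)).mono (ell_mono hm)
    have r2 := ((hM0 J (by
      have := (le_max_right J0 (M0 + 1)).trans hJ
      omega) n' (by omega)).shift (m + κ + 1)).mono (ell_succ (L := L) (m := m) hκ)
    have r3 := r1.sub r2
    rw [BS] at r3
    have e : (b : ℤ) - ((hor w m (κ + 1) bs : ℤ) - (2 ^ w) ^ (m + (κ + 1) + 1) *
        hor w m (κ + 1 + 1) bs.tail) * (2 ^ w) ^ (m + κ + 1) =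
        (hor w m κ (b :: bs) : ℤ) - (2 ^ w) ^ (m + κ + 1) * hor w m (κ + 1) (b :: bs).tail := by
      rw [hor_cons, List.tail_cons]
      push_cast
      rw [show (2 : ℤ) ^ (w * (2 * m + 2 * κ + 3)) = (2 ^ w) ^ (m + (κ + 1) + 1) *
        (2 ^ w) ^ (m + κ + 1) by rw [← pow_add, ← pow_mul]; congr 1; ring]
      ring
    rw [e] at r3
    exact r3

theorem row_rep (hC : CoefStatement) (hP : P2Statement) {w L m0 m TL : ℕ} {Bs : List ℕ}
    (hm : m0 ≤ m) (hB : BLi w L m0 1 Bs) (hTL : L ≤ TL)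
    (hok : rowok w (Nat.pow 2 (Nat.mul w TL)) m Bs = true) :
    Rep (2 ^ w) L (V m) ((rowv w (Nat.pow 2 (Nat.mul w TL)) m Bs : ℕ) : ℤ) := by
  obtain ⟨M0, hM0⟩ := hor_rep hm Bs 1 le_rfl hB
  have h1 := hM0 (max M0 (L + m + 1)) (le_max_left _ _) (max M0 (L + m + 1)) (le_max_left _ _)
  rw [ell_one] at h1
  have h2 := h1.congr (V_congr hC hP (m := m) (L := L) (le_max_right M0 _) (le_max_right M0 _))
  refine h2.modEq ?_
  have h3 : rowQ w m Bs ≤ hor w m 1 Bs + 2 ^ (w * TL) := Nat.le_of_ble_eq_true hok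
  have h4 := modEq_sub_top (w := w) (n := L) h3 hTL
  refine Int.ModEq.trans ?_ h4
  rw [rowQ, lsh_eq]
  push_cast
  rw [pow_mul, show m + 1 + 1 = m + 2 by ring, mul_comm ((hor w m 2 Bs.tail : ℕ) : ℤ)]

end Pool.Agent.Helper79_UR
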