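import Pool.Agent.Helper79_UR.Chunk

/-!
# FIN (MP_c97607_co): large `m`
-/

namespace Pool.Agent.Helper79_UR

open PowerSeries Pool.Agent.Helper21_UR

theorem rw_mono1 (hM : MonoStatement) (m i : ℕ) : rw_ m i ≤ rw_ (m + 1) i := by
  have h := hM.2.1 m (i + (m + 1))
  unfold rw_
  rw [show i + (m + 1 + 1) = i + (m + 1) + 1 by ring]
  exact_mod_cast h

theorem rw_mono (hM : MonoStatement) {m m' : ℕ} (h : m ≤ m') (i : ℕ) : rw_ m i ≤ rw_ m' i := by
  induction m', h using Nat.le_induction with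
  | base => exact le_rfl
  | succ m' _ ih => exact ih.trans (rw_mono1 hM m' i)

theorem rw_stable (hM : MonoStatement) {L m i : ℕ} (hi : i < L) (h : L ≤ m) :
    rw_ m i = rw_ L i := by
  induction m, h using Nat.le_induction with
  | base => rfl
  | succ m hm ih =>
    rw [← ih]
    have h := hM.2.2 m (i + (m + 1)) (by omega)
    unfold rw_
    rw [show i + (m + 1 + 1) = i + (m + 1) + 1 by ring]
    exact_mod_cast h.symm

theorem rw_le (hM : MonoStatement) {L i : ℕ} (hi : i < L) (m : ℕ) : rw_ m i ≤ rw_ L i := by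
  rcases le_total m L with h | h
  · exact rw_mono hM h i
  · exact (rw_stable hM hi h).le

theorem head_rowD (hC : CoefStatement) (hP : P2Statement) {w L S m0 : ℕ} {Bs : List ℕ}
    (hL : 1 ≤ L) (hb : ∀ n < L, bp n n < 2 ^ S) (hU : ubd L S L ≤ 2 ^ w)
    (hB : BLi w L m0 1 Bs) : RowD w L L (Bs.headD 0) := by
  cases Bs with
  | nil =>
    have : ell L m0 1 = 0 := hB
    rw [ell_one] at this
    omega
  | cons b bs =>
    obtain ⟨⟨J0, hJ0⟩, _⟩ := hB
    rw [List.headD_cons]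
    have h1 := hJ0 (max J0 (L + L + 1)) (le_max_left _ _)
    rw [ell_one] at h1
    have h2 : (X : ℤ⟦X⟧) ^ L ∣ V L - BS 1 (max J0 (L + L + 1)) := by
      have h3 := V_congr hC hP (m := L) (L := L) (n := L + L + 1 + 1)
        (le_max_right J0 (L + L + 1)) (by omega)
      have h4 : TS L 1 (max J0 (L + L + 1)) (L + L + 1 + 1) = BS 1 (max J0 (L + L + 1)) -
          X ^ (L + 1 + 1) * TS L (1 + 1) (max J0 (L + L + 1)) (L + L + 1) := TS_succ _ _ _ _
      rw [h4] at h3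
      have h5 : (X : ℤ⟦X⟧) ^ L ∣ X ^ (L + 1 + 1) *
          TS L (1 + 1) (max J0 (L + L + 1)) (L + L + 1) :=
        (pow_dvd_pow _ (by omega)).mul_right _
      have h6 := dvd_sub h3 h5
      rwa [show V L - (BS 1 (max J0 (L + L + 1)) - X ^ (L + 1 + 1) *
        TS L (1 + 1) (max J0 (L + L + 1)) (L + L + 1)) - X ^ (L + 1 + 1) *
        TS L (1 + 1) (max J0 (L + L + 1)) (L + L + 1) = V L - BS 1 (max J0 (L + L + 1)) by
          ring] at h6
    refine pk_eq_of_rep (h1.congr h2) (fun i _ => by simp [V, rw_]) fun i hi => ?_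
    exact (u_lt hC hP hb hi le_rfl).trans_le hU

theorem tloop_sound (hC : CoefStatement) (hP : P2Statement) (hM : MonoStatement)
    {w L S m0 TL : ℕ} {Bs : List ℕ} (hw : 0 < w) (hL : 1 ≤ L) (hb : ∀ n < L, bp n n < 2 ^ S)
    (hB : BLi w L m0 1 Bs) (hTL : L ≤ TL) : ∀ tl : List (ℕ × Blk),
    oktl w L (ubd L S L) m0 tl = true → tloop w (Nat.pow 2 (Nat.mul w TL)) Bs tl = true →
    ∀ t ∈ tl, ∀ m, t.1 ≤ m → ∀ N, t.2.1 ≤ N → N < t.2.1 + t.2.2.1 → Good m N := by
  intro tl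
  induction tl with
  | nil => intro _ _ t ht; simp at ht
  | cons s tl ih =>
    intro hok h t ht m hm N hN1 hN2
    simp only [oktl, Bool.and_eq_true] at hok
    obtain ⟨q1, q2, q3, q4, q5⟩ := hok
    simp only [tloop, Bool.and_eq_true] at h
    obtain ⟨r1, r2, r3⟩ := h
    rcases List.mem_cons.1 ht with rfl | ht
    · obtain ⟨o0, o1, o2⟩ := okbl_spec q4
      have hL' : m0 ≤ t.1 := Nat.le_of_ble_eq_true q1
      have hL'' : t.1 ≤ L := Nat.le_of_ble_eq_true q2
      have hL3 : 1 ≤ t.1 := Nat.le_of_ble_eq_true q3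
      have hY := rowD_of hC hP hb ((ubd_mono hL'').trans o0) hL' hB hTL r1
      have hX := head_rowD hC hP hL hb o0 hB
      rw [slices_map, slices_map] at r2
      have r4 := blk_map r2 t.2 List.mem_cons_self
      have ok := o1 t.2 List.mem_cons_self
      have h5 := blk1_sound hw ok o0 hX hY hX
        (fun i hi => u_lt hC hP hb hi le_rfl) (fun i hi => u_lt hC hP hb hi hL'')
        (fun i hi => u_lt hC hP hb hi le_rfl) r4 N hN1 hN2
      have hN2' : 2 ≤ N := ok.1.trans hN1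
      have hNL : N < L := hN2.trans_le ok.2.1
      refine good_of (by omega) hN2' ?_
      have a1 : rw_ (m - 1) N ≤ rw_ L N := rw_le hM hNL _
      have a2 : rw_ (m + 1) (N - 2) ≤ rw_ L (N - 2) := rw_le hM (by omega) _
      have a3 : rw_ t.1 (N - 1) ≤ rw_ m (N - 1) := rw_mono hM hm _
      calc rw_ (m - 1) N * rw_ (m + 1) (N - 2) ≤ rw_ L N * rw_ L (N - 2) := Nat.mul_le_mul a1 a2
        _ < rw_ t.1 (N - 1) ^ 2 := h5
        _ ≤ rw_ m (N - 1) ^ 2 := Nat.pow_le_pow_left a3 2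
    · exact ih q5 r3 t ht m hm N hN1 hN2

theorem tail_sound (hC : CoefStatement) (hP : P2Statement) (hM : MonoStatement)
    {w L S K np m0 TL : ℕ} {ps : List ℕ} {tl : List (ℕ × Blk)}
    (h : tailc w L S K np m0 TL ps tl = true) :
    ∀ t ∈ tl, ∀ m, t.1 ≤ m → ∀ N, t.2.1 ≤ N → N < t.2.1 + t.2.2.1 → Good m N := by
  simp only [tailc, Bool.and_eq_true] at h
  obtain ⟨h2, h3, h4⟩ := h
  obtain ⟨hb, Bs, hB, hk⟩ := base_sound h2 h4
  simp only [okpar, Bool.and_eq_true] at h2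
  obtain ⟨p1, p2, p3, p4, p5⟩ := h2
  exact tloop_sound hC hP hM (Nat.le_of_ble_eq_true p1) (Nat.le_of_ble_eq_true p3) hb hB
    (Nat.le_of_ble_eq_true p4) tl h3 hk

end Pool.Agent.Helper79_UR
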